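import Mathlib

/-!
# The spatial two-community model in the boxes `B_n`

The law of `(φ_n, labels, G_n)`: the number `N` of points is Poisson with mean `λ n`, given `N` the
points are independent and uniform in the box `B_n` of volume `n`, the labels are independent fair
coins, and the pair `{i,j}` is joined when an independent uniform variable `u_{ij} ∈ [0,1]` is at
most `f_in(‖x_i-x_j‖)` (equal labels) or `f_out(‖x_i-x_j‖)` (different labels).
-/

open MeasureTheory ProbabilityTheory Filter Topology

open scoped ENNReal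

namespace Pool.Agent.K7.H99.OV

/-- The sign of a label. -/
def sg (b : Bool) : ℝ := if b then 1 else -1

/-- `ℝ^d` with the Euclidean norm. -/
abbrev Pt (d : ℕ) := EuclideanSpace ℝ (Fin d)

/-- The box `B_n = [-n^{1/d}/2, n^{1/d}/2]^d`. -/
def box (d : ℕ) (n : ℝ) : Set (Pt d) :=
  {x | ∀ k, x k ∈ Set.Icc (-(n ^ (1 / (d : ℝ)) / 2)) (n ^ (1 / (d : ℝ)) / 2)}

/-- A configuration of `N` points: positions, labels, and one number for each pair. -/
abbrev Conf (d N : ℕ) := (Fin N → Pt d) × (Fin N → Bool) × (Sym2 (Fin N) → ℝ)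

/-- The connection probability of two points with labels `a`, `b` at distance `r`. -/
def conn (fin fout : ℝ → ℝ) (a b : Bool) (r : ℝ) : ℝ := if a = b then fin r else fout r

theorem conn_comm (fin fout : ℝ → ℝ) (a b : Bool) (r : ℝ) :
    conn fin fout a b r = conn fin fout b a r := by
  cases a <;> cases b <;> rfl

/-- The graph of a configuration. -/
def graph {d N : ℕ} (fin fout : ℝ → ℝ) (ω : Conf d N) : SimpleGraph (Fin N) where
  Adj i j := i ≠ j ∧ ω.2.2 s(i, j) ≤ conn fin fout (ω.2.1 i) (ω.2.1 j) ‖ω.1 i - ω.1 j‖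
  symm := ⟨fun i j h => ⟨h.1.symm, by
    rw [Sym2.eq_swap, norm_sub_rev, conn_comm]
    exact h.2⟩⟩
  loopless := ⟨fun i h => h.1 rfl⟩

/-- The law of a fair coin. -/
noncomputable def coin : Measure Bool :=
  (2⁻¹ : ℝ≥0∞) • Measure.dirac true + (2⁻¹ : ℝ≥0∞) • Measure.dirac false

/-- The uniform law on `[0,1]`. -/
noncomputable def unif : Measure ℝ := volume.restrict (Set.Icc 0 1)

/-- The law of the labels and of the pair variables. -/
noncomputable def marks (N : ℕ) : Measure ((Fin N → Bool) × (Sym2 (Fin N) → ℝ)) :=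
  (Measure.pi fun _ => coin).prod (Measure.pi fun _ => unif)

/-- The law of the configuration in the box `B_n` given that there are `N` points. -/
noncomputable def confLaw (d : ℕ) (n : ℝ) (N : ℕ) : Measure (Conf d N) :=
  (Measure.pi fun _ => cond volume (box d n)).prod (marks N)

/-- Poisson weights with mean `m`. -/
noncomputable def poi (m : ℝ) (N : ℕ) : ℝ≥0∞ :=
  ENNReal.ofReal (Real.exp (-m) * m ^ N / N.factorial)

/-- The law of the configuration in the box `B_n` at intensity `lam`. -/
noncomputable def law (d : ℕ) (lam n : ℝ) : Measure (Σ N, Conf d N) :=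
  Measure.sum fun N => poi (lam * n) N • (confLaw d n N).map (Sigma.mk N)

/-- An estimator: for each `n`, a (measurable) map sending the set of points and the graph to
labels of the points, i.e. a map on enumerated configurations which commutes with the
relabellings of the enumeration (on configurations of distinct points). -/
structure Estimator (d : ℕ) where
  /-- the labels -/
  est : ℝ → ∀ N : ℕ, (Fin N → Pt d) → SimpleGraph (Fin N) → Fin N → Bool
  measurable_est : ∀ n N G, Measurable fun x => est n N x G
  equivariant : ∀ n N x G (π : Equiv.Perm (Fin N)), Function.Injective x →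
    est n N (x ∘ π) (G.comap π) = est n N x G ∘ π

/-- The overlap of two labellings. -/
noncomputable def overlap {N : ℕ} (a b : Fin N → Bool) : ℝ :=
  if N = 0 then 1 else |∑ i, sg (a i) * sg (b i)| / N

/-- The overlap of an estimator with the true labels. -/
noncomputable def ov {d : ℕ} (fin fout : ℝ → ℝ) (τ : Estimator d) (n : ℝ) (ω : Σ N, Conf d N) :
    ℝ :=
  overlap (τ.est n ω.1 ω.2.1 (graph fin fout ω.2)) ω.2.2.1

/-- `γ(τ) = sup {γ ≥ 0 : P(O_n ≥ γ) → 1}` at intensity `lam`. -/
noncomputable def gam {d : ℕ} (fin fout : ℝ → ℝ) (lam : ℝ) (τ : Estimator d) : ℝ :=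
  sSup {γ : ℝ | 0 ≤ γ ∧
    Tendsto (fun n : ℝ => law d lam n {ω | γ ≤ ov fin fout τ n ω}) atTop (𝓝 1)}

/-- The optimal overlap `O*(lam)`. -/
noncomputable def optOverlap (d : ℕ) (fin fout : ℝ → ℝ) (lam : ℝ) : ℝ :=
  ⨆ τ : Estimator d, gam fin fout lam τ

end Pool.Agent.K7.H99.OV
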