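import Mathlib

/-!
# A weak regularity partition (energy increment)

On a finite set `Ω` with nonnegative weights of total mass one, vectors `h ω` of norm at most `C`
admit a partition with a bounded number of classes for which, for every unit vector `z`, the
variable `⟨h ω, z⟩` is close in quadratic mean to its class average.
-/

namespace Pool.Agent.K7.H99.OV

open Finset

variable {Ω : Type} [Fintype Ω]

/-- mass of the class `a` -/
noncomputable def mass (w : Ω → ℝ) (c : Ω → ℕ) (a : ℕ) : ℝ :=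
  ∑ ω, if c ω = a then w ω else 0

/-- class mean -/
noncomputable def cm (w : Ω → ℝ) (c : Ω → ℕ) (g : Ω → ℝ) (a : ℕ) : ℝ :=
  (∑ ω, if c ω = a then w ω * g ω else 0) / mass w c a

/-- mean square distance to the class means -/
noncomputable def var (w : Ω → ℝ) (c : Ω → ℕ) (g : Ω → ℝ) : ℝ :=
  ∑ ω, w ω * (g ω - cm w c g (c ω)) ^ 2

theorem mass_nonneg {w : Ω → ℝ} (hw : ∀ ω, 0 ≤ w ω) (c : Ω → ℕ) (a : ℕ) : 0 ≤ mass w c a :=
  sum_nonneg fun ω _ => by split_ifs <;> simp [hw]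

theorem mass_mul_cm {w : Ω → ℝ} (hw : ∀ ω, 0 ≤ w ω) (c : Ω → ℕ) (g : Ω → ℝ) (a : ℕ) :
    mass w c a * cm w c g a = ∑ ω, if c ω = a then w ω * g ω else 0 := by
  by_cases h : mass w c a = 0
  · rw [h, zero_mul]
    rw [mass, sum_eq_zero_iff_of_nonneg (fun ω _ => by split_ifs <;> simp [hw])] at h
    symm
    refine sum_eq_zero fun ω hω => ?_
    have := h ω hω
    split_ifs with hc
    · simp only [hc, if_true] at this; rw [this, zero_mul]
    · rfl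
  · rw [cm, mul_div_cancel₀ _ h]

/-- Group a sum by classes. -/
theorem sum_class {L : ℕ} {c : Ω → ℕ} (hc : ∀ ω, c ω < L) (F : Ω → ℝ) :
    ∑ ω, F ω = ∑ a ∈ range L, ∑ ω, if c ω = a then F ω else 0 := by
  rw [sum_comm]
  refine sum_congr rfl fun ω _ => ?_
  rw [sum_ite_eq (range L) (c ω)]
  simp [hc ω]

theorem exists_bound (c : Ω → ℕ) : ∃ L, ∀ ω, c ω < L := by
  refine ⟨univ.sup c + 1, fun ω => Nat.lt_succ_of_le (le_sup (mem_univ ω))⟩

theorem sum_mass {w : Ω → ℝ} (hw1 : ∑ ω, w ω = 1) {L : ℕ} {c : Ω → ℕ} (hc : ∀ ω, c ω < L) :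
    ∑ a ∈ range L, mass w c a = 1 := by
  rw [← hw1, sum_class hc]; rfl

/-- Orthogonality. -/
theorem sum_mul_class {w : Ω → ℝ} (hw : ∀ ω, 0 ≤ w ω) (c : Ω → ℕ) (g : Ω → ℝ) (k : ℕ → ℝ) :
    ∑ ω, w ω * (g ω * k (c ω)) = ∑ ω, w ω * (cm w c g (c ω) * k (c ω)) := by
  obtain ⟨L, hL⟩ := exists_bound c
  rw [sum_class hL, sum_class hL (fun ω => w ω * (cm w c g (c ω) * k (c ω)))]
  refine sum_congr rfl fun a _ => ?_
  have h1 : (∑ ω, if c ω = a then w ω * (g ω * k (c ω)) else 0) =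
      (∑ ω, if c ω = a then w ω * g ω else 0) * k a := by
    rw [sum_mul]; refine sum_congr rfl fun ω _ => ?_
    split_ifs with h
    · rw [h]; ring
    · ring
  have h2 : (∑ ω, if c ω = a then w ω * (cm w c g (c ω) * k (c ω)) else 0) =
      mass w c a * cm w c g a * k a := by
    rw [mass, sum_mul, sum_mul]; refine sum_congr rfl fun ω _ => ?_
    split_ifs with h
    · rw [h]; ring
    · ring
  rw [h1, h2, mass_mul_cm hw]

/-- Pythagoras. -/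
theorem pythagoras {w : Ω → ℝ} (hw : ∀ ω, 0 ≤ w ω) (c : Ω → ℕ) (g : Ω → ℝ) (k : ℕ → ℝ) :
    ∑ ω, w ω * (g ω - k (c ω)) ^ 2 = var w c g + ∑ ω, w ω * (cm w c g (c ω) - k (c ω)) ^ 2 := by
  have h := sum_mul_class hw c g (fun a => cm w c g a - k a)
  rw [var, ← sum_add_distrib]
  have : ∀ ω, w ω * (g ω - k (c ω)) ^ 2 =
      (w ω * (g ω - cm w c g (c ω)) ^ 2 + w ω * (cm w c g (c ω) - k (c ω)) ^ 2) +
        2 * (w ω * (g ω * (cm w c g (c ω) - k (c ω))) -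
          w ω * (cm w c g (c ω) * (cm w c g (c ω) - k (c ω)))) := by
    intro ω; ring
  simp only [this]
  rw [sum_add_distrib, ← mul_sum, sum_sub_distrib, h, sub_self, mul_zero, add_zero]

theorem var_nonneg {w : Ω → ℝ} (hw : ∀ ω, 0 ≤ w ω) (c : Ω → ℕ) (g : Ω → ℝ) : 0 ≤ var w c g :=
  sum_nonneg fun ω _ => mul_nonneg (hw ω) (sq_nonneg _)

theorem var_le {w : Ω → ℝ} (hw : ∀ ω, 0 ≤ w ω) (c : Ω → ℕ) (g : Ω → ℝ) (k : ℕ → ℝ) :
    var w c g ≤ ∑ ω, w ω * (g ω - k (c ω)) ^ 2 := by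
  rw [pythagoras hw c g k]
  have : 0 ≤ ∑ ω, w ω * (cm w c g (c ω) - k (c ω)) ^ 2 :=
    sum_nonneg fun ω _ => mul_nonneg (hw ω) (sq_nonneg _)
  linarith

/-- Refinement. -/
theorem var_refine {w : Ω → ℝ} (hw : ∀ ω, 0 ≤ w ω) (c c' : Ω → ℕ) (ρ : ℕ → ℕ)
    (hρ : ∀ ω, ρ (c' ω) = c ω) (g : Ω → ℝ) :
    var w c g = var w c' g + ∑ ω, w ω * (cm w c' g (c' ω) - cm w c g (c ω)) ^ 2 := by
  have h := pythagoras hw c' g (fun a => cm w c g (ρ a))
  simp only [hρ] at h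
  exact h

variable {ι : Type} [Fintype ι]

theorem cm_linear (w : Ω → ℝ) (c : Ω → ℕ) (h : Ω → ι → ℝ) (z : ι → ℝ) (a : ℕ) :
    cm w c (fun ω => ∑ i, h ω i * z i) a = ∑ i, cm w c (fun ω => h ω i) a * z i := by
  simp only [cm]
  have h1 : (∑ ω, if c ω = a then w ω * ∑ i, h ω i * z i else 0) =
      ∑ i, (∑ ω, if c ω = a then w ω * h ω i else 0) * z i := by
    simp only [sum_mul]
    rw [sum_comm]
    refine sum_congr rfl fun ω _ => ?_
    split_ifs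
    · rw [mul_sum]; refine sum_congr rfl fun i _ => by ring
    · simp
  rw [h1, sum_div]
  refine sum_congr rfl fun i _ => by ring

/-- One step of the energy increment. -/
theorem step {w : Ω → ℝ} (hw : ∀ ω, 0 ≤ w ω) (hw1 : ∑ ω, w ω = 1) {C : ℝ} (hC : 0 ≤ C)
    (h : Ω → ι → ℝ) (hh : ∀ ω, ∑ i, (h ω i) ^ 2 ≤ C ^ 2) {ε δ : ℝ} (hδ : 0 < δ)
    (c : Ω → ℕ) (z : ι → ℝ) (hz : ∑ i, (z i) ^ 2 ≤ 1)
    (hv : ε < var w c (fun ω => ∑ i, h ω i * z i)) :
    ∃ c' : Ω → ℕ, (∀ L, (∀ ω, c ω < L) → ∀ ω, c' ω < L * (⌊2 * C / δ⌋₊ + 1)) ∧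
      ∑ i, var w c' (fun ω => h ω i) ≤ ∑ i, var w c (fun ω => h ω i) - (ε - δ ^ 2) := by
  set K := ⌊2 * C / δ⌋₊ + 1 with hK
  set f : Ω → ℝ := fun ω => ∑ i, h ω i * z i with hf
  have hfC : ∀ ω, |f ω| ≤ C := by
    intro ω
    have h1 : (f ω) ^ 2 ≤ (∑ i, (h ω i) ^ 2) * ∑ i, (z i) ^ 2 := sum_mul_sq_le_sq_mul_sq _ _ _
    have h2 : (∑ i, (h ω i) ^ 2) * ∑ i, (z i) ^ 2 ≤ C ^ 2 * 1 :=
      mul_le_mul (hh ω) hz (sum_nonneg fun _ _ => sq_nonneg _) (sq_nonneg _)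
    rw [mul_one] at h2
    exact abs_le_of_sq_le_sq (h1.trans h2) hC
  let cell : Ω → ℕ := fun ω => ⌊(f ω + C) / δ⌋₊
  have hcell : ∀ ω, cell ω < K := by
    intro ω
    have h1 : (f ω + C) / δ ≤ 2 * C / δ := by
      apply div_le_div_of_nonneg_right _ hδ.le
      have := (abs_le.1 (hfC ω)).2; linarith
    exact Nat.lt_succ_of_le (Nat.floor_le_floor h1)
  have hK0 : 0 < K := Nat.succ_pos _
  let c' : Ω → ℕ := fun ω => c ω * K + cell ω
  have hdiv : ∀ ω, c' ω / K = c ω := by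
    intro ω
    simp only [c']
    rw [mul_comm, Nat.mul_add_div hK0, Nat.div_eq_of_lt (hcell ω), add_zero]
  have hmod : ∀ ω, c' ω % K = cell ω := by
    intro ω
    simp only [c']
    rw [mul_comm, Nat.mul_add_mod, Nat.mod_eq_of_lt (hcell ω)]
  refine ⟨c', ?_, ?_⟩
  · intro L hL ω
    have h1 := hL ω
    have h2 := hcell ω
    calc c ω * K + cell ω < c ω * K + K := by omega
      _ = (c ω + 1) * K := by ring
      _ ≤ L * K := Nat.mul_le_mul_right _ h1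
  · have hsmall : var w c' f ≤ δ ^ 2 := by
      have h1 := var_le hw c' f (fun a => δ * ((a % K : ℕ) : ℝ) - C)
      refine h1.trans ?_
      have h2 : ∀ ω, w ω * (f ω - (δ * ((c' ω % K : ℕ) : ℝ) - C)) ^ 2 ≤ w ω * δ ^ 2 := by
        intro ω
        refine mul_le_mul_of_nonneg_left ?_ (hw ω)
        rw [hmod]
        have h3 : 0 ≤ (f ω + C) / δ := by
          apply div_nonneg _ hδ.le
          have := (abs_le.1 (hfC ω)).1; linarith
        have h4 := Nat.floor_le h3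
        have h5 := (Nat.lt_floor_add_one ((f ω + C) / δ))
        rw [le_div_iff₀ hδ] at h4
        rw [div_lt_iff₀ hδ] at h5
        have h6 : 0 ≤ f ω - (δ * (cell ω : ℝ) - C) := by simp only [cell]; nlinarith
        have h7 : f ω - (δ * (cell ω : ℝ) - C) ≤ δ := by simp only [cell]; nlinarith
        exact pow_le_pow_left₀ h6 h7 2
      refine (sum_le_sum fun ω _ => h2 ω).trans ?_
      rw [← sum_mul, hw1, one_mul]
    have h1 := var_refine hw c c' (fun a => a / K) hdiv f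
    have h2 : ∑ i, var w c (fun ω => h ω i) = ∑ i, var w c' (fun ω => h ω i) +
        ∑ ω, w ω * ∑ i, (cm w c' (fun ω => h ω i) (c' ω) - cm w c (fun ω => h ω i) (c ω)) ^ 2 := by
      simp only [mul_sum]
      rw [sum_comm (s := (univ : Finset Ω)), ← sum_add_distrib]
      exact sum_congr rfl fun i _ => var_refine hw c c' (fun a => a / K) hdiv _
    have h3 : ∑ ω, w ω * (cm w c' f (c' ω) - cm w c f (c ω)) ^ 2 ≤
        ∑ ω, w ω * ∑ i, (cm w c' (fun ω => h ω i) (c' ω) - cm w c (fun ω => h ω i) (c ω)) ^ 2 := by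
      refine sum_le_sum fun ω _ => mul_le_mul_of_nonneg_left ?_ (hw ω)
      rw [hf, cm_linear, cm_linear, ← sum_sub_distrib]
      have h4 : ∀ i, cm w c' (fun ω => h ω i) (c' ω) * z i - cm w c (fun ω => h ω i) (c ω) * z i =
          (cm w c' (fun ω => h ω i) (c' ω) - cm w c (fun ω => h ω i) (c ω)) * z i := by
        intro i; ring
      simp only [h4]
      refine (sum_mul_sq_le_sq_mul_sq _ _ _).trans ?_
      exact mul_le_of_le_one_right (sum_nonneg fun _ _ => sq_nonneg _) hz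
    linarith

/-- Weak regularity. -/
theorem regularity (C ε : ℝ) (hC : 0 ≤ C) (hε : 0 < ε) :
    ∃ L : ℕ, 0 < L ∧ ∀ (Ω : Type) [Fintype Ω] (ι : Type) [Fintype ι] (w : Ω → ℝ) (h : Ω → ι → ℝ),
      (∀ ω, 0 ≤ w ω) → ∑ ω, w ω = 1 → (∀ ω, ∑ i, (h ω i) ^ 2 ≤ C ^ 2) →
      ∃ c : Ω → ℕ, (∀ ω, c ω < L) ∧
        ∀ z : ι → ℝ, ∑ i, (z i) ^ 2 ≤ 1 → var w c (fun ω => ∑ i, h ω i * z i) ≤ ε := by
  obtain ⟨δ, hδ, hδ2⟩ : ∃ δ : ℝ, 0 < δ ∧ δ ^ 2 ≤ ε / 2 := by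
    refine ⟨Real.sqrt (ε / 2), Real.sqrt_pos.2 (by positivity), ?_⟩
    rw [Real.sq_sqrt (by positivity)]
  have key : ∀ n : ℕ, ∃ L : ℕ, 0 < L ∧ ∀ (Ω : Type) [Fintype Ω] (ι : Type) [Fintype ι]
      (w : Ω → ℝ) (h : Ω → ι → ℝ), (∀ ω, 0 ≤ w ω) → ∑ ω, w ω = 1 →
      (∀ ω, ∑ i, (h ω i) ^ 2 ≤ C ^ 2) →
      ∃ c : Ω → ℕ, (∀ ω, c ω < L) ∧
        ((∀ z : ι → ℝ, ∑ i, (z i) ^ 2 ≤ 1 → var w c (fun ω => ∑ i, h ω i * z i) ≤ ε) ∨
          ∑ i, var w c (fun ω => h ω i) ≤ C ^ 2 - n * (ε / 2)) := by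
    intro n
    induction n with
    | zero =>
      refine ⟨1, one_pos, fun Ω _ ι _ w h hw hw1 hh => ⟨fun _ => 0, fun _ => one_pos, Or.inr ?_⟩⟩
      have h1 : ∀ i, var w (fun _ => 0) (fun ω => h ω i) ≤ ∑ ω, w ω * (h ω i) ^ 2 := by
        intro i
        have := var_le hw (fun _ => 0) (fun ω => h ω i) (fun _ => 0)
        simpa using this
      refine (sum_le_sum fun i _ => h1 i).trans ?_
      rw [sum_comm]
      have h2 : ∀ ω, ∑ i, w ω * (h ω i) ^ 2 ≤ w ω * C ^ 2 := by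
        intro ω
        rw [← mul_sum]
        exact mul_le_mul_of_nonneg_left (hh ω) (hw ω)
      refine (sum_le_sum fun ω _ => h2 ω).trans ?_
      rw [← sum_mul, hw1]; simp
    | succ n ih =>
      obtain ⟨L, hL0, hL⟩ := ih
      refine ⟨L * (⌊2 * C / δ⌋₊ + 1), by positivity, ?_⟩
      intro Ω _ ι _ w h hw hw1 hh
      obtain ⟨c, hcL, hc⟩ := hL Ω ι w h hw hw1 hh
      have hbig : ∀ ω, c ω < L * (⌊2 * C / δ⌋₊ + 1) := by
        intro ω
        refine (hcL ω).trans_le ?_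
        exact Nat.le_mul_of_pos_right _ (Nat.succ_pos _)
      by_cases hgood : ∀ z : ι → ℝ, ∑ i, (z i) ^ 2 ≤ 1 →
          var w c (fun ω => ∑ i, h ω i * z i) ≤ ε
      · exact ⟨c, hbig, Or.inl hgood⟩
      · have hc' := hc.resolve_left hgood
        push Not at hgood
        obtain ⟨z, hz, hv⟩ := hgood
        obtain ⟨c', h1, h2⟩ := step hw hw1 hC h hh hδ c z hz hv
        refine ⟨c', h1 L hcL, Or.inr ?_⟩
        push_cast
        linarith
  obtain ⟨n, hn⟩ := exists_nat_gt (C ^ 2 / (ε / 2))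
  obtain ⟨L, hL0, hL⟩ := key n
  refine ⟨L, hL0, fun Ω _ ι _ w h hw hw1 hh => ?_⟩
  obtain ⟨c, hcL, hc⟩ := hL Ω ι w h hw hw1 hh
  refine ⟨c, hcL, hc.resolve_right ?_⟩
  rw [div_lt_iff₀ (by positivity)] at hn
  have h0 : 0 ≤ ∑ i, var w c (fun ω => h ω i) := sum_nonneg fun i _ => var_nonneg hw _ _
  intro hcon
  linarith

end Pool.Agent.K7.H99.OV
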