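import Pool.Agent.K7.H99.OV.Prod
import Pool.Agent.K7.H99.OV.Reg
import Pool.Agent.K7.H99.OV.Defs

/-!
# Aggregating the labellings of random subsets

`σ S` is a labelling of the random (Bernoulli `p`) subset `S` of a set of `N` points.  For `N`
large there is one probability law on labellings of all points which, for **every** hidden
labelling `z`, has overlap at least `γ - ε` with `z`, up to probability `η` plus the probability
that `σ S` has overlap less than `γ` with `z` on `S`.
-/

namespace Pool.Agent.K7.H99.OV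

open Finset

theorem sg_sq (b : Bool) : sg b ^ 2 = 1 := by cases b <;> simp [sg]

theorem abs_sg (b : Bool) : |sg b| = 1 := by cases b <;> simp [sg]

/-- Bernoulli weights -/
def ber (ι : Type) (p : ℝ) : ι → Bool → ℝ := fun _ v => if v then p else 1 - p

/-- weights of independent signs with means `u` -/
noncomputable def rw' {ι : Type} (u : ι → ℝ) : ι → Bool → ℝ := fun i v => (1 + sg v * u i) / 2

variable {ι : Type} [Fintype ι] [DecidableEq ι]

theorem round {u : ι → ℝ} (hu : ∀ i, |u i| ≤ 1) (z : ι → ℝ) (hz : ∀ i, |z i| ≤ 1) {t : ℝ}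
    (ht : 0 < t) :
    ∑ θ, pw (rw' u) θ * (if t ≤ |∑ i, (sg (θ i) - u i) * z i| then 1 else 0) ≤
      Fintype.card ι / t ^ 2 := by
  have hr0 : ∀ i v, 0 ≤ rw' u i v := by
    intro i v
    have h1 := abs_le.1 (hu i)
    cases v <;> simp [rw', sg] <;> linarith
  have hr : ∀ i, ∑ v, rw' u i v = 1 := by
    intro i; simp [rw', sg]; ring
  have h := chebyshev hr0 hr (fun i v => (sg v - u i) * z i)
    (by intro i; simp [rw', sg]; ring) ht
  refine h.trans ?_
  apply div_le_div_of_nonneg_right _ (by positivity)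
  have h2 : ∀ i, ∑ v, rw' u i v * ((sg v - u i) * z i) ^ 2 ≤ 1 := by
    intro i
    have h3 : ∑ v, rw' u i v * ((sg v - u i) * z i) ^ 2 = (1 - (u i) ^ 2) * (z i) ^ 2 := by
      simp [rw', sg]; ring
    rw [h3]
    have h4 : (z i) ^ 2 ≤ 1 := (sq_le_one_iff_abs_le_one _).2 (hz i)
    have h5 : 0 ≤ 1 - (u i) ^ 2 := by
      have := (sq_le_one_iff_abs_le_one _).2 (hu i); linarith
    nlinarith [sq_nonneg (u i), sq_nonneg (z i)]
  calc ∑ i, ∑ v, rw' u i v * ((sg v - u i) * z i) ^ 2 ≤ ∑ i : ι, (1 : ℝ) :=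
        sum_le_sum fun i _ => h2 i
    _ = Fintype.card ι := by simp

theorem rw'_nonneg {u : ι → ℝ} (hu : ∀ i, |u i| ≤ 1) (θ : ι → Bool) : 0 ≤ pw (rw' u) θ := by
  refine pw_nonneg (fun i v => ?_) θ
  have h1 := abs_le.1 (hu i)
  cases v <;> simp [rw', sg] <;> linarith

theorem sum_rw' (u : ι → ℝ) : ∑ θ, pw (rw' u) θ = 1 :=
  sum_pw fun i => by simp [rw', sg]; ring

/-- clamp to `[-1,1]` -/
noncomputable def clamp (x : ℝ) : ℝ := max (-1) (min 1 x)

theorem abs_clamp (x : ℝ) : |clamp x| ≤ 1 := by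
  rw [abs_le]; constructor
  · exact le_max_left _ _
  · exact max_le (by norm_num) (min_le_left _ _)

theorem clamp_dist {x s : ℝ} (h : |x| ≤ s) : |x - clamp x| ≤ |s - 1| := by
  rcases le_total |x| 1 with h1 | h1
  · have h2 := abs_le.1 h1
    have : clamp x = x := by
      rw [clamp, min_eq_right h2.2, max_eq_right h2.1]
    rw [this, sub_self, abs_zero]; positivity
  · have h3 : s - 1 ≤ |s - 1| := le_abs_self _
    rcases abs_cases x with ⟨h4, h5⟩ | ⟨h4, h5⟩
    · have : clamp x = 1 := by
        rw [clamp, min_eq_left (by linarith), max_eq_right (by norm_num)]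
      rw [this, abs_of_nonneg (by linarith)]; linarith
    · have : clamp x = -1 := by
        rw [clamp, min_eq_right (by linarith), max_eq_left (by linarith)]
      rw [this, abs_of_nonpos (by linarith)]; linarith

theorem ber_nonneg {p : ℝ} (hp0 : 0 < p) (hp1 : p < 1) : ∀ i v, 0 ≤ ber ι p i v := by
  intro i v; simp only [ber]; split_ifs <;> linarith

theorem sum_ber {p : ℝ} : ∀ i, ∑ v, ber ι p i v = 1 := by
  intro i; simp [ber]

omit [DecidableEq ι] in
theorem cm_abs_le {Ω : Type} [Fintype Ω] {w : Ω → ℝ} (hw : ∀ ω, 0 ≤ w ω) (c : Ω → ℕ)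
    (g k : Ω → ℝ) (h : ∀ ω, |g ω| ≤ k ω) (a : ℕ) : |cm w c g a| ≤ cm w c k a := by
  rw [cm, cm, abs_div, abs_of_nonneg (mass_nonneg hw c a)]
  apply div_le_div_of_nonneg_right _ (mass_nonneg hw c a)
  refine (abs_sum_le_sum_abs _ _).trans (sum_le_sum fun ω _ => ?_)
  split_ifs
  · rw [abs_mul, abs_of_nonneg (hw ω)]
    exact mul_le_mul_of_nonneg_left (h ω) (hw ω)
  · simp

omit [DecidableEq ι] in
theorem cm_smul {Ω : Type} [Fintype Ω] (w : Ω → ℝ) (c : Ω → ℕ)
    (g : Ω → ℝ) (k : ℝ) (a : ℕ) : cm w c (fun ω => k * g ω) a = k * cm w c g a := by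
  simp only [cm]
  rw [← mul_div_assoc, mul_sum]
  congr 1
  refine sum_congr rfl fun ω _ => ?_
  split_ifs <;> ring

omit [DecidableEq ι] in
theorem var_smul {Ω : Type} [Fintype Ω] (w : Ω → ℝ) (c : Ω → ℕ)
    (g : Ω → ℝ) (k : ℝ) : var w c (fun ω => k * g ω) = k ^ 2 * var w c g := by
  rw [var, var, mul_sum]
  refine sum_congr rfl fun ω _ => ?_
  rw [cm_smul]; ring

/-- inclusion probabilities within a class -/
theorem class_bessel {p : ℝ} (hp0 : 0 < p) (hp1 : p < 1) (c : (ι → Bool) → ℕ) (a : ℕ)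
    (hM : 0 < mass (pw (ber ι p)) c a) :
    ∑ i, (cm (pw (ber ι p)) c (fun b => if b i then 1 else 0) a - p) ^ 2 ≤
      p / mass (pw (ber ι p)) c a := by
  set w := pw (ber ι p) with hwdef
  have hw : ∀ b, 0 ≤ w b := pw_nonneg (ber_nonneg hp0 hp1)
  set M := mass w c a with hMdef
  have h := bessel (ι := ι) hp0 hp1 (fun b => if c b = a then 1 else 0)
  simp only at h
  have h1 : ∀ i, ∑ b, pw (fun _ v => if v = true then p else 1 - p) b *
      ((if c b = a then 1 else 0) * ((if b i = true then 1 else 0) - p)) =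
      M * (cm w c (fun b => if b i then 1 else 0) a - p) := by
    intro i
    rw [mul_sub, mass_mul_cm hw, hMdef, mass, sum_mul, ← sum_sub_distrib]
    refine sum_congr rfl fun b _ => ?_
    have : pw (fun _ v => if v = true then p else 1 - p) b = w b := rfl
    rw [this]
    split_ifs <;> ring
  have h2 : ∑ b, pw (fun _ v => if v = true then p else 1 - p) b *
      (if c b = a then (1 : ℝ) else 0) ^ 2 = M := by
    rw [hMdef, mass]
    refine sum_congr rfl fun b _ => ?_
    have : pw (fun _ v => if v = true then p else 1 - p) b = w b := rfl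
    rw [this]
    split_ifs <;> ring
  rw [h2] at h
  simp only [h1] at h
  have h3 : ∑ i, (M * (cm w c (fun b => if b i = true then 1 else 0) a - p)) ^ 2 =
      M ^ 2 * ∑ i, (cm w c (fun b => if b i = true then 1 else 0) a - p) ^ 2 := by
    rw [mul_sum]; exact sum_congr rfl fun i _ => by ring
  rw [h3] at h
  rw [le_div_iff₀ hM]
  have h4 : p * (1 - p) * M ≤ p * M := by
    have := mul_pos (mul_pos hp0 hp0) hM
    nlinarith
  nlinarith

/-- The main aggregation statement. -/
theorem core {p γ ε η : ℝ} (hp0 : 0 < p) (hp1 : p < 1) (hγ0 : 0 ≤ γ) (hγ1 : γ ≤ 1) (hε : 0 < ε)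
    (hη : 0 < η) :
    ∃ N₀ : ℕ, ∀ (ι : Type) [Fintype ι] [DecidableEq ι], N₀ ≤ Fintype.card ι →
      ∀ σ : (ι → Bool) → ι → ℝ, (∀ S i, |σ S i| ≤ if S i then 1 else 0) →
      ∃ q : (ι → Bool) → ℝ, (∀ θ, 0 ≤ q θ) ∧ ∑ θ, q θ = 1 ∧
        ∀ z : ι → Bool,
          ∑ θ, q θ * (if |∑ i, sg (θ i) * sg (z i)| < (γ - ε) * Fintype.card ι then 1 else 0) ≤
            η + ∑ S, pw (ber ι p) S *
              (if |∑ i, σ S i * sg (z i)| < γ * (∑ i, if S i then (1 : ℝ) else 0) then 1 else 0) := by
  obtain ⟨L, hL0, hreg⟩ := regularity (1 / p) (η * ε ^ 2 / 64) (by positivity) (by positivity)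
  set c₀ : ℝ := η / (4 * L) with hc₀
  have hLpos : (0 : ℝ) < L := by exact_mod_cast hL0
  have hc₀pos : 0 < c₀ := by positivity
  obtain ⟨N₁, hN₁⟩ := exists_nat_gt (16 / (ε ^ 2 * p * c₀))
  obtain ⟨N₂, hN₂⟩ := exists_nat_gt (64 / (ε ^ 2 * p * η))
  refine ⟨N₁ + N₂ + 1, fun ι _ _ hcard σ hσ => ?_⟩
  set N : ℝ := (Fintype.card ι : ℝ) with hN
  have hNc : ((N₁ + N₂ + 1 : ℕ) : ℝ) ≤ N := by rw [hN]; exact_mod_cast hcard
  push_cast at hNc
  have hN1 : 0 < N := by
    have : (0 : ℝ) ≤ N₁ := Nat.cast_nonneg _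
    have : (0 : ℝ) ≤ N₂ := Nat.cast_nonneg _
    linarith
  have hA : 16 / (ε ^ 2 * p * c₀) ≤ N := by
    have : (0 : ℝ) ≤ N₂ := Nat.cast_nonneg _
    linarith
  have hB : 64 / (ε ^ 2 * p * η) ≤ N := by
    have : (0 : ℝ) ≤ N₁ := Nat.cast_nonneg _
    linarith
  rw [div_le_iff₀ (by positivity)] at hA hB
  set w := pw (ber ι p) with hwdef
  have hw : ∀ b, 0 ≤ w b := pw_nonneg (ber_nonneg hp0 hp1)
  have hw1 : ∑ b, w b = 1 := sum_pw sum_ber
  set sN := Real.sqrt N with hsN
  have hsN2 : sN ^ 2 = N := Real.sq_sqrt hN1.le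
  have hsNpos : 0 < sN := Real.sqrt_pos.2 hN1
  obtain ⟨c, hcL, hc⟩ := hreg (ι → Bool) ι w (fun S i => σ S i / (p * sN)) hw hw1 (by
    intro S
    have h1 : ∀ i, (σ S i / (p * sN)) ^ 2 ≤ 1 / (p ^ 2 * N) := by
      intro i
      have h2 : (σ S i) ^ 2 ≤ 1 := by
        rw [sq_le_one_iff_abs_le_one]
        refine (hσ S i).trans ?_
        split_ifs <;> norm_num
      rw [div_pow, mul_pow, hsN2]
      exact div_le_div_of_nonneg_right h2 (by positivity)
    refine (sum_le_sum fun i _ => h1 i).trans ?_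
    rw [sum_const, card_univ, nsmul_eq_mul, ← hN]
    have : N * (1 / (p ^ 2 * N)) = (1 / p) ^ 2 := by field_simp
    rw [this])
  -- rescaled statement
  have hvar : ∀ z : ι → Bool, var w c (fun S => ∑ i, σ S i * sg (z i)) ≤
      η * ε ^ 2 / 64 * (p * N) ^ 2 := by
    intro z
    have h1 := hc (fun i => sg (z i) / sN) (by
      simp only [div_pow, sg_sq, hsN2]
      rw [sum_const, card_univ, nsmul_eq_mul, ← hN]
      have : N * (1 / N) = 1 := by field_simp
      rw [this])
    have h2 : (fun S => ∑ i, σ S i / (p * sN) * (sg (z i) / sN)) =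
        fun S => (1 / (p * N)) * ∑ i, σ S i * sg (z i) := by
      funext S
      rw [mul_sum]
      refine sum_congr rfl fun i _ => ?_
      rw [← hsN2]; field_simp
    rw [h2, var_smul] at h1
    have h3 : (0 : ℝ) < p * N := by positivity
    rw [div_pow, one_pow, one_div, inv_mul_le_iff₀ (by positivity)] at h1
    linarith
  -- the aggregated law
  set ub : ℕ → ι → ℝ := fun a i => clamp (cm w c (fun S => σ S i) a / p) with hub
  have hub1 : ∀ a i, |ub a i| ≤ 1 := fun a i => abs_clamp _
  refine ⟨fun θ => ∑ a ∈ range L, mass w c a * pw (rw' (ub a)) θ, ?_, ?_, ?_⟩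
  · intro θ
    exact sum_nonneg fun a _ => mul_nonneg (mass_nonneg hw c a) (rw'_nonneg (hub1 a) θ)
  · rw [sum_comm]
    simp only [← mul_sum, sum_rw', mul_one]
    exact sum_mass hw1 hcL
  intro z
  set G : (ι → Bool) → ℝ := fun S => ∑ i, σ S i * sg (z i) with hG
  set bad : ℕ → ℝ := fun a => if |cm w c G a| < (γ - ε / 2) * (p * N) then 1 else 0 with hbad
  have hbad0 : ∀ a, 0 ≤ bad a := by intro a; simp only [hbad]; split_ifs <;> norm_num
  set F : ℕ → ℝ := fun a => ∑ θ, pw (rw' (ub a)) θ *
    (if |∑ i, sg (θ i) * sg (z i)| < (γ - ε) * N then 1 else 0) with hF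
  have hF0 : ∀ a, 0 ≤ F a := by
    intro a
    refine sum_nonneg fun θ _ => mul_nonneg (rw'_nonneg (hub1 a) θ) ?_
    split_ifs <;> norm_num
  have hF1 : ∀ a, F a ≤ 1 := by
    intro a
    rw [← sum_rw' (ub a)]
    refine sum_le_sum fun θ _ => ?_
    refine mul_le_of_le_one_right (rw'_nonneg (hub1 a) θ) ?_
    split_ifs <;> norm_num
  -- good large classes
  have hgood : ∀ a, c₀ ≤ mass w c a → (γ - ε / 2) * (p * N) ≤ |cm w c G a| → F a ≤ η / 4 := by
    intro a ha hcm
    have hMpos : 0 < mass w c a := hc₀pos.trans_le ha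
    have hlin : cm w c G a = ∑ i, cm w c (fun S => σ S i) a * sg (z i) :=
      cm_linear w c σ (fun i => sg (z i)) a
    set A : ι → ℝ := fun i => cm w c (fun b => if b i then 1 else 0) a with hAdef
    have hbes : ∑ i, (A i - p) ^ 2 ≤ p / mass w c a := class_bessel hp0 hp1 c a hMpos
    have hd : ∀ i, |cm w c (fun S => σ S i) a / p - ub a i| ≤ |A i - p| / p := by
      intro i
      have h1 : |cm w c (fun S => σ S i) a| ≤ A i := cm_abs_le hw c _ _ (fun S => hσ S i) a
      have h2 : |cm w c (fun S => σ S i) a / p| ≤ A i / p := by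
        rw [abs_div, abs_of_pos hp0]; exact div_le_div_of_nonneg_right h1 hp0.le
      have h3 := clamp_dist h2
      have h4 : |A i / p - 1| = |A i - p| / p := by
        rw [← abs_of_pos hp0, ← abs_div, abs_of_pos hp0]
        congr 1; field_simp
      rw [h4] at h3
      exact h3
    have hsum : ∑ i, |A i - p| / p ≤ ε / 4 * N := by
      rw [← sum_div, div_le_iff₀ hp0]
      have h1 : (∑ i, |A i - p|) ^ 2 ≤ (ε / 4 * N * p) ^ 2 := by
        have h2 : (∑ i, |A i - p|) ^ 2 ≤ N * ∑ i, |A i - p| ^ 2 := by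
          have := sq_sum_le_card_mul_sum_sq (s := (univ : Finset ι)) (f := fun i => |A i - p|)
          rw [card_univ] at this
          exact this
        simp only [sq_abs] at h2
        have h3 : N * ∑ i, (A i - p) ^ 2 ≤ N * (p / c₀) := by
          apply mul_le_mul_of_nonneg_left _ hN1.le
          exact hbes.trans (div_le_div_of_nonneg_left hp0.le hc₀pos ha)
        refine (h2.trans h3).trans ?_
        rw [← mul_div_assoc, div_le_iff₀ hc₀pos]
        have h5 : N * p * 16 ≤ N * p * (N * (ε ^ 2 * p * c₀)) :=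
          mul_le_mul_of_nonneg_left hA (by positivity)
        nlinarith [h5]
      exact le_of_sq_le_sq h1 (by positivity)
    have hmean : (γ - 3 * ε / 4) * N ≤ |∑ i, ub a i * sg (z i)| := by
      have h1 : |∑ i, cm w c (fun S => σ S i) a / p * sg (z i)| = |cm w c G a| / p := by
        rw [hlin]
        have : ∑ i, cm w c (fun S => σ S i) a / p * sg (z i) =
            (∑ i, cm w c (fun S => σ S i) a * sg (z i)) / p := by
          rw [sum_div]; exact sum_congr rfl fun i _ => by ring
        rw [this, abs_div, abs_of_pos hp0]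
      have h2 : (γ - ε / 2) * N ≤ |∑ i, cm w c (fun S => σ S i) a / p * sg (z i)| := by
        rw [h1, le_div_iff₀ hp0]; linarith
      have h3 : |∑ i, cm w c (fun S => σ S i) a / p * sg (z i)| ≤
          |∑ i, ub a i * sg (z i)| +
            |∑ i, (cm w c (fun S => σ S i) a / p - ub a i) * sg (z i)| := by
        have : ∑ i, cm w c (fun S => σ S i) a / p * sg (z i) = ∑ i, ub a i * sg (z i) +
            ∑ i, (cm w c (fun S => σ S i) a / p - ub a i) * sg (z i) := by
          rw [← sum_add_distrib]; exact sum_congr rfl fun i _ => by ring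
        rw [this]; exact abs_add_le _ _
      have h4 : |∑ i, (cm w c (fun S => σ S i) a / p - ub a i) * sg (z i)| ≤ ε / 4 * N := by
        refine (abs_sum_le_sum_abs _ _).trans (le_trans (sum_le_sum fun i _ => ?_) hsum)
        rw [abs_mul, abs_sg, mul_one]; exact hd i
      nlinarith
    have h6 := round (hub1 a) (fun i => sg (z i)) (fun i => (abs_sg _).le)
      (t := ε / 4 * N) (by positivity)
    have h7 : F a ≤ ∑ θ, pw (rw' (ub a)) θ *
        (if ε / 4 * N ≤ |∑ i, (sg (θ i) - ub a i) * sg (z i)| then 1 else 0) := by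
      refine sum_le_sum fun θ _ => mul_le_mul_of_nonneg_left ?_ (rw'_nonneg (hub1 a) θ)
      split_ifs with h8 h9
      · exact le_refl _
      · exfalso
        have h10 : |∑ i, ub a i * sg (z i)| ≤ |∑ i, sg (θ i) * sg (z i)| +
            |∑ i, (sg (θ i) - ub a i) * sg (z i)| := by
          have : ∑ i, ub a i * sg (z i) = ∑ i, sg (θ i) * sg (z i) -
              ∑ i, (sg (θ i) - ub a i) * sg (z i) := by
            rw [← sum_sub_distrib]; exact sum_congr rfl fun i _ => by ring
          rw [this]; exact abs_sub _ _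
        nlinarith
      · norm_num
      · norm_num
    refine h7.trans (h6.trans ?_)
    rw [← hN, div_le_iff₀ (by positivity)]
    have h11 : 64 * 1 ≤ N * (ε ^ 2 * η) := by
      have : N * (ε ^ 2 * p * η) ≤ N * (ε ^ 2 * η) := by
        apply mul_le_mul_of_nonneg_left _ hN1.le
        have : ε ^ 2 * p * η = p * (ε ^ 2 * η) := by ring
        rw [this]
        exact mul_le_of_le_one_left (by positivity) hp1.le
      linarith
    have h12 : N * (64 * 1) ≤ N * (N * (ε ^ 2 * η)) := mul_le_mul_of_nonneg_left h11 hN1.le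
    nlinarith
  -- per class estimate
  have hclass : ∀ a, mass w c a * F a ≤ mass w c a * (η / 4) + mass w c a * bad a + c₀ := by
    intro a
    have hM := mass_nonneg hw c a
    have h1 : 0 ≤ mass w c a * (η / 4) := by positivity
    have h2 : 0 ≤ mass w c a * bad a := mul_nonneg hM (hbad0 a)
    by_cases ha : c₀ ≤ mass w c a
    · by_cases hb : (γ - ε / 2) * (p * N) ≤ |cm w c G a|
      · have := mul_le_mul_of_nonneg_left (hgood a ha hb) hM
        linarith
      · have h3 : bad a = 1 := by simp only [hbad]; rw [if_pos (not_le.1 hb)]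
        have h4 := mul_le_mul_of_nonneg_left (hF1 a) hM
        rw [h3]; linarith
    · have h4 := mul_le_mul_of_nonneg_left (hF1 a) hM
      linarith [not_le.1 ha]
  -- mass of the bad classes
  have hbadsum : ∑ a ∈ range L, mass w c a * bad a = ∑ S, w S * bad (c S) := by
    rw [sum_class hcL (fun S => w S * bad (c S))]
    refine sum_congr rfl fun a _ => ?_
    rw [mass, sum_mul]
    refine sum_congr rfl fun S _ => ?_
    split_ifs with h
    · rw [h]
    · ring
  set card' : (ι → Bool) → ℝ := fun S => ∑ i, if S i then (1 : ℝ) else 0 with hcard'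
  have hcheb : ∑ S, w S * (if ε / 4 * (p * N) ≤
      |∑ i, ((if S i then (1 : ℝ) else 0) - p)| then 1 else 0) ≤ η / 4 := by
    have h1 := chebyshev (ι := ι) (ber_nonneg hp0 hp1) sum_ber
      (fun i v => (if v then (1 : ℝ) else 0) - p) (by intro i; simp [ber]; ring)
      (t := ε / 4 * (p * N)) (by positivity)
    refine h1.trans ?_
    have h2 : ∀ i : ι, ∑ v, ber ι p i v * ((if v then (1 : ℝ) else 0) - p) ^ 2 = p * (1 - p) := by
      intro i; simp [ber]; ring
    simp only [h2]
    rw [sum_const, card_univ, nsmul_eq_mul, ← hN, div_le_iff₀ (by positivity)]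
    have h3 : N * (p * (1 - p)) ≤ N * p := by
      apply mul_le_mul_of_nonneg_left _ hN1.le
      nlinarith
    have h4 : N * p * 64 ≤ N * p * (N * (ε ^ 2 * p * η)) :=
      mul_le_mul_of_nonneg_left hB (by positivity)
    nlinarith
  have hmarkov : ∑ S, w S * (if ε / 4 * (p * N) ≤ |G S - cm w c G (c S)| then 1 else 0) ≤
      η / 4 := by
    have h1 : ∑ S, w S * (if ε / 4 * (p * N) ≤ |G S - cm w c G (c S)| then 1 else 0) ≤
        var w c G / (ε / 4 * (p * N)) ^ 2 := by
      rw [var, sum_div]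
      refine sum_le_sum fun S _ => ?_
      rw [mul_div_assoc]
      refine mul_le_mul_of_nonneg_left ?_ (hw S)
      split_ifs with h
      · rw [le_div_iff₀ (by positivity), one_mul, ← sq_abs (G S - cm w c G (c S))]
        exact pow_le_pow_left₀ (by positivity) h 2
      · positivity
    refine h1.trans ?_
    rw [div_le_iff₀ (by positivity)]
    have := hvar z
    nlinarith
  have hpoint : ∀ S, bad (c S) ≤
      (if |G S| < γ * card' S then 1 else 0) +
      (if ε / 4 * (p * N) ≤ |∑ i, ((if S i then (1 : ℝ) else 0) - p)| then 1 else 0) +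
      (if ε / 4 * (p * N) ≤ |G S - cm w c G (c S)| then 1 else 0) := by
    intro S
    have hp1' : (0 : ℝ) ≤ (if |G S| < γ * card' S then 1 else 0) := by
      split_ifs <;> norm_num
    have hp2' : (0 : ℝ) ≤ (if ε / 4 * (p * N) ≤
      |∑ i, ((if S i then (1 : ℝ) else 0) - p)| then 1 else 0) := by
      split_ifs <;> norm_num
    have hp3' : (0 : ℝ) ≤ (if ε / 4 * (p * N) ≤ |G S - cm w c G (c S)| then 1 else 0) := by
      split_ifs <;> norm_num
    by_cases hb : |cm w c G (c S)| < (γ - ε / 2) * (p * N)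
    · have hb1 : bad (c S) = 1 := by simp only [hbad]; rw [if_pos hb]
      rw [hb1]
      by_cases h1 : |G S| < γ * card' S
      · rw [if_pos h1]; linarith
      by_cases h2 : ε / 4 * (p * N) ≤ |∑ i, ((if S i then (1 : ℝ) else 0) - p)|
      · rw [if_pos h2]; linarith
      have h3 : ε / 4 * (p * N) ≤ |G S - cm w c G (c S)| := by
        rw [not_lt] at h1
        rw [not_le] at h2
        have h4 : ∑ i, ((if S i then (1 : ℝ) else 0) - p) = card' S - N * p := by
          rw [sum_sub_distrib, sum_const, card_univ, nsmul_eq_mul]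
        rw [h4] at h2
        have h5 := (abs_lt.1 h2).1
        have h6 : γ * card' S ≥ (γ - ε / 4) * (p * N) := by
          have h7 : card' S ≥ (1 - ε / 4) * (p * N) := by nlinarith
          have h8 : γ * card' S ≥ γ * ((1 - ε / 4) * (p * N)) := mul_le_mul_of_nonneg_left h7 hγ0
          have h9 : 0 ≤ (1 - γ) * (ε / 4 * (p * N)) :=
            mul_nonneg (by linarith) (by positivity)
          nlinarith
        have h10 : |G S| ≤ |G S - cm w c G (c S)| + |cm w c G (c S)| := by
          have := abs_add_le (G S - cm w c G (c S)) (cm w c G (c S))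
          simpa using this
        nlinarith
      rw [if_pos h3]; linarith
    · have hb1 : bad (c S) = 0 := by simp only [hbad]; rw [if_neg hb]
      rw [hb1]; linarith
  -- assemble
  have hLHS : ∑ θ, (∑ a ∈ range L, mass w c a * pw (rw' (ub a)) θ) *
      (if |∑ i, sg (θ i) * sg (z i)| < (γ - ε) * N then 1 else 0) =
      ∑ a ∈ range L, mass w c a * F a := by
    simp only [sum_mul, hF, mul_sum]
    rw [sum_comm]
    refine sum_congr rfl fun a _ => sum_congr rfl fun θ _ => by ring
  rw [hLHS]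
  calc ∑ a ∈ range L, mass w c a * F a
      ≤ ∑ a ∈ range L, (mass w c a * (η / 4) + mass w c a * bad a + c₀) :=
        sum_le_sum fun a _ => hclass a
    _ = η / 4 + ∑ S, w S * bad (c S) + L * c₀ := by
        rw [sum_add_distrib, sum_add_distrib, ← sum_mul, sum_mass hw1 hcL, hbadsum, sum_const,
          card_range, nsmul_eq_mul, one_mul]
    _ ≤ η / 4 + (∑ S, w S * (if |G S| < γ * card' S then 1 else 0) + η / 4 + η / 4) + η / 4 := by
        have h1 : L * c₀ = η / 4 := by rw [hc₀]; field_simp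
        have h2 : ∑ S, w S * bad (c S) ≤ ∑ S, w S * (if |G S| < γ * card' S then 1 else 0) +
            ∑ S, w S * (if ε / 4 * (p * N) ≤
              |∑ i, ((if S i then (1 : ℝ) else 0) - p)| then 1 else 0) +
            ∑ S, w S * (if ε / 4 * (p * N) ≤ |G S - cm w c G (c S)| then 1 else 0) := by
          rw [← sum_add_distrib, ← sum_add_distrib]
          refine sum_le_sum fun S _ => ?_
          rw [← mul_add, ← mul_add]
          exact mul_le_mul_of_nonneg_left (hpoint S) (hw S)
        linarith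
    _ = η + ∑ S, w S * (if |G S| < γ * card' S then 1 else 0) := by ring

end Pool.Agent.K7.H99.OV
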