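import Pool.Agent.K7.H99.OV.Opt

/-!
# Monotonicity of the optimal overlap
-/

open MeasureTheory ProbabilityTheory Filter Topology

open scoped ENNReal

namespace Pool.Agent.K7.H99.OV

variable {d : ℕ} {fin fout : ℝ → ℝ}

theorem measurableSet_fail (hfin : Measurable fin) (hfout : Measurable fout) {N : ℕ} (t : ℝ)
    (e : (Fin N → Pt d) → SimpleGraph (Fin N) → Fin N → Bool)
    (he : ∀ G, Measurable fun x => e x G) :
    MeasurableSet {ω : Conf d N | Fail t (e ω.1 (graph fin fout ω)) ω.2.1} := by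
  have h1 : {ω : Conf d N | Fail t (e ω.1 (graph fin fout ω)) ω.2.1} =
      ⋃ G, ⋃ θ, ({ω : Conf d N | graph fin fout ω = G} ∩ {ω : Conf d N | e ω.1 G = θ}) ∩
        {ω : Conf d N | Fail t θ ω.2.1} := by
    ext ω
    constructor
    · intro h
      exact Set.mem_iUnion.2 ⟨graph fin fout ω, Set.mem_iUnion.2
        ⟨e ω.1 (graph fin fout ω), ⟨rfl, rfl⟩, h⟩⟩
    · intro h
      obtain ⟨G, h⟩ := Set.mem_iUnion.1 h
      obtain ⟨θ, ⟨h1, h2⟩, h3⟩ := Set.mem_iUnion.1 h
      have h1' : graph fin fout ω = G := h1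
      have h2' : e ω.1 G = θ := h2
      show Fail t (e ω.1 (graph fin fout ω)) ω.2.1
      rw [h1', h2']; exact h3
  rw [h1]
  refine MeasurableSet.iUnion fun G => MeasurableSet.iUnion fun θ => ?_
  refine ((measurable_graph hfin hfout G).inter ?_).inter (measurableSet_labels (Fail t θ))
  exact ((he G).comp measurable_fst) (Set.Countable.measurableSet (Set.to_countable {θ}))

theorem ofReal_sum_ind {Θ : Type} [Fintype Θ] (q : Θ → ℝ) (hq : ∀ θ, 0 ≤ q θ) (P : Θ → Prop)
    [DecidablePred P] :
    ENNReal.ofReal (∑ θ, q θ * (if P θ then 1 else 0)) =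
      ∑ θ, ENNReal.ofReal (q θ) * (if P θ then 1 else 0) := by
  rw [ENNReal.ofReal_sum_of_nonneg (fun θ _ => by split_ifs <;> simp [hq])]
  refine Finset.sum_congr rfl fun θ _ => ?_
  split_ifs <;> simp

open Classical in
/-- The pointwise (in the positions) comparison. -/
theorem section_bound {p γ ε η : ℝ} (hp0 : 0 < p) (hp1 : p < 1) (hγ0 : 0 ≤ γ) (hγ1 : γ ≤ 1)
    (hε : 0 < ε) (hη : 0 < η) :
    ∃ N₀ : ℕ, ∀ (d : ℕ) (fin fout : ℝ → ℝ), Measurable fin → Measurable fout →
      ∀ (φ : Pt d → ℝ) (τ : Estimator d) (n : ℝ) (N : ℕ), N₀ ≤ N → ∀ x : Fin N → Pt d,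
      marks N {m | Fail (γ - ε) (star φ fin fout (γ - ε) x (graph fin fout (x, m))) m.1} ≤
        ∫⁻ m, (ENNReal.ofReal η + ∑ S : Fin N → Bool, ENNReal.ofReal (pw (ber (Fin N) p) S) *
          (if Fail γ (τ.est n _ (x ∘ emb S) (graph fin fout (subconf (emb S) ((x, m) : Conf d N))))
            (m.1 ∘ emb S) then 1 else 0)) ∂(marks N) := by
  obtain ⟨N₀, hN₀⟩ := core hp0 hp1 hγ0 hγ1 hε hη
  refine ⟨N₀, fun d fin fout hfin hfout φ τ n N hN x => ?_⟩
  set D : (Fin N → Bool) × (Sym2 (Fin N) → ℝ) → ℝ≥0∞ := fun m =>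
    ENNReal.ofReal η + ∑ S : Fin N → Bool, ENNReal.ofReal (pw (ber (Fin N) p) S) *
      (if Fail γ (τ.est n _ (x ∘ emb S) (graph fin fout (subconf (emb S) ((x, m) : Conf d N))))
        (m.1 ∘ emb S) then 1 else 0) with hD
  set B : SimpleGraph (Fin N) → Set ((Fin N → Bool) × (Sym2 (Fin N) → ℝ)) := fun G =>
    {m | graph fin fout (x, m) = G} with hB
  have hBm : ∀ G, MeasurableSet (B G) := fun G =>
    (measurable_prodMk_left (x := x)) (measurable_graph hfin hfout G)
  -- one graph
  have hG : ∀ G, Psi fin fout (γ - ε) x G (star φ fin fout (γ - ε) x G) ≤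
      ∫⁻ m in B G, D m ∂(marks N) := by
    intro G
    obtain ⟨q, hq0, hq1, hq⟩ := hN₀ (Fin N) (by simpa using hN)
      (fun S => spread S (τ.est n _ (x ∘ emb S) (G.comap (emb S))))
      (fun S i => abs_spread_le S _ i)
    have h1 : Psi fin fout (γ - ε) x G (star φ fin fout (γ - ε) x G) ≤
        ∑ θ, ENNReal.ofReal (q θ) * Psi fin fout (γ - ε) x G θ := by
      have h2 : ∑ θ, ENNReal.ofReal (q θ) = 1 := by
        rw [← ENNReal.ofReal_sum_of_nonneg (fun θ _ => hq0 θ), hq1, ENNReal.ofReal_one]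
      calc Psi fin fout (γ - ε) x G (star φ fin fout (γ - ε) x G)
          = ∑ θ, ENNReal.ofReal (q θ) *
              Psi fin fout (γ - ε) x G (star φ fin fout (γ - ε) x G) := by
            rw [← Finset.sum_mul, h2, one_mul]
        _ ≤ _ := Finset.sum_le_sum fun θ _ =>
            mul_le_mul_right (star_opt hfin hfout φ (γ - ε) x G θ) _
    refine h1.trans ?_
    have h3 : ∀ θ, Psi fin fout (γ - ε) x G θ =
        ∫⁻ m in B G, (if Fail (γ - ε) θ m.1 then 1 else 0) ∂(marks N) := by
      intro θ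
      have h4 : MeasurableSet {m : (Fin N → Bool) × (Sym2 (Fin N) → ℝ) | Fail (γ - ε) θ m.1} :=
        measurable_fst (Set.Countable.measurableSet
          (Set.to_countable {z : Fin N → Bool | Fail (γ - ε) θ z}))
      have h5 : (fun m : (Fin N → Bool) × (Sym2 (Fin N) → ℝ) =>
          (if Fail (γ - ε) θ m.1 then (1 : ℝ≥0∞) else 0)) =
          Set.indicator {m | Fail (γ - ε) θ m.1} 1 := by
        funext m
        simp only [Set.indicator, Pi.one_apply]
        rfl
      rw [h5, lintegral_indicator_one h4, Measure.restrict_apply h4, Set.inter_comm]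
      rfl
    simp only [h3]
    have hmeas : ∀ θ : Fin N → Bool, Measurable fun m : (Fin N → Bool) × (Sym2 (Fin N) → ℝ) =>
        (if Fail (γ - ε) θ m.1 then (1 : ℝ≥0∞) else 0) := fun θ =>
      (measurable_of_countable fun z : Fin N → Bool =>
        (if Fail (γ - ε) θ z then (1 : ℝ≥0∞) else 0)).comp measurable_fst
    have h6 : ∑ θ, ENNReal.ofReal (q θ) *
        ∫⁻ m in B G, (if Fail (γ - ε) θ m.1 then 1 else 0) ∂(marks N) =
        ∫⁻ m in B G, ∑ θ, ENNReal.ofReal (q θ) * (if Fail (γ - ε) θ m.1 then 1 else 0)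
          ∂(marks N) := by
      rw [lintegral_finsetSum _ (fun θ _ => (hmeas θ).const_mul _)]
      refine Finset.sum_congr rfl fun θ _ => ?_
      rw [lintegral_const_mul _ (hmeas θ)]
    rw [h6]
    refine setLIntegral_mono' (hBm G) fun m hm => ?_
    have hm' : graph fin fout (x, m) = G := hm
    have h7 := hq m.1
    have h8 : ENNReal.ofReal (∑ θ, q θ * (if Fail (γ - ε) θ m.1 then 1 else 0)) ≤
        ENNReal.ofReal (η + ∑ S, pw (ber (Fin N) p) S *
          (if Fail γ (τ.est n _ (x ∘ emb S) (G.comap (emb S))) (m.1 ∘ emb S) then 1 else 0)) := by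
      apply ENNReal.ofReal_le_ofReal
      have e1 : ∀ θ : Fin N → Bool, (if Fail (γ - ε) θ m.1 then (1 : ℝ) else 0) =
          (if |∑ i, sg (θ i) * sg (m.1 i)| < (γ - ε) * (Fintype.card (Fin N) : ℝ)
            then 1 else 0) := by
        intro θ
        rw [Fintype.card_fin]; rfl
      have e2 : ∀ S : Fin N → Bool,
          (if Fail γ (τ.est n _ (x ∘ emb S) (G.comap (emb S))) (m.1 ∘ emb S) then (1 : ℝ) else 0) =
          (if |∑ i, spread S (τ.est n _ (x ∘ emb S) (G.comap (emb S))) i * sg (m.1 i)| <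
            γ * (∑ i, if S i then (1 : ℝ) else 0) then 1 else 0) := by
        intro S
        rw [sum_spread, sum_ind]; rfl
      simp only [e1, e2]
      exact h7
    rw [ofReal_sum_ind q hq0] at h8
    refine h8.trans ?_
    rw [ENNReal.ofReal_add hη.le (Finset.sum_nonneg fun S _ => mul_nonneg
      (pw_nonneg (ber_nonneg hp0 hp1) S) (by split_ifs <;> norm_num)),
      ofReal_sum_ind _ (fun S => pw_nonneg (ber_nonneg hp0 hp1) S)]
    rw [hD]
    simp only
    gcongr with S
    rw [graph_subconf fin fout (emb S) (emb_injective S), hm']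
  -- all graphs
  have hcov : {m | Fail (γ - ε) (star φ fin fout (γ - ε) x (graph fin fout (x, m))) m.1} ⊆
      ⋃ G, {m | graph fin fout (x, m) = G ∧
        Fail (γ - ε) (star φ fin fout (γ - ε) x G) m.1} := by
    intro m hm
    exact Set.mem_iUnion.2 ⟨graph fin fout (x, m), rfl, hm⟩
  calc marks N {m | Fail (γ - ε) (star φ fin fout (γ - ε) x (graph fin fout (x, m))) m.1}
      ≤ ∑ G, Psi fin fout (γ - ε) x G (star φ fin fout (γ - ε) x G) :=
        (measure_mono hcov).trans (measure_iUnion_fintype_le _ _)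
    _ ≤ ∑ G, ∫⁻ m in B G, D m ∂(marks N) := Finset.sum_le_sum fun G _ => hG G
    _ = ∫⁻ m, D m ∂(marks N) := by
        have hdisj : Pairwise (Function.onFun Disjoint B) := by
          intro G G' hGG
          rw [Function.onFun, Set.disjoint_left]
          intro m hm hm'
          exact hGG (Eq.trans (Eq.symm hm) hm')
        have huniv : (⋃ G, B G) = Set.univ := by
          ext m
          exact ⟨fun _ => Set.mem_univ _, fun _ => Set.mem_iUnion.2 ⟨graph fin fout (x, m), rfl⟩⟩
        rw [← setLIntegral_univ, ← huniv, lintegral_iUnion hBm hdisj, tsum_fintype]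

/-- The probability that the overlap is below `γ`, given `N` points. -/
noncomputable def pf (fin fout : ℝ → ℝ) (τ : Estimator d) (n γ : ℝ) (N : ℕ) : ℝ≥0∞ :=
  confLaw d n N {ω | Fail γ (τ.est n N ω.1 (graph fin fout ω)) ω.2.1}

open Classical in
/-- The comparison given the number of points. -/
theorem conf_bound {p γ ε η : ℝ} (hp0 : 0 < p) (hp1 : p < 1) (hγ0 : 0 ≤ γ) (hγ1 : γ ≤ 1)
    (hε : 0 < ε) (hη : 0 < η) :
    ∃ N₀ : ℕ, ∀ (d : ℕ) (fin fout : ℝ → ℝ) (hfin : Measurable fin) (hfout : Measurable fout)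
      (φ : Pt d → ℝ) (hφ : Measurable φ) (hφi : Function.Injective φ) (τ : Estimator d) (n : ℝ),
      IsProbabilityMeasure (cond volume (box d n)) → ∀ N : ℕ, N₀ ≤ N →
      pf fin fout (starEst hfin hfout hφ hφi (γ - ε)) n (γ - ε) N ≤
        ENNReal.ofReal η + ∑ S : Fin N → Bool, ENNReal.ofReal (pw (ber (Fin N) p) S) *
          pf fin fout τ n γ (sub S).card := by
  obtain ⟨N₀, hN₀⟩ := section_bound hp0 hp1 hγ0 hγ1 hε hη
  refine ⟨N₀, fun d fin fout hfin hfout φ hφ hφi τ n hprob N hN => ?_⟩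
  have hA := measurableSet_fail (d := d) hfin hfout (N := N) (γ - ε)
    (fun x G => star φ fin fout (γ - ε) x G) (fun G => measurable_star hfin hfout hφ (γ - ε) G)
  set C : (Fin N → Bool) → Set (Conf d N) := fun S =>
    subconf (emb S) ⁻¹' {ω | Fail γ (τ.est n _ ω.1 (graph fin fout ω)) ω.2.1} with hC
  have hC0 : ∀ S : Fin N → Bool, MeasurableSet {ω : Conf d (sub S).card |
      Fail γ (τ.est n _ ω.1 (graph fin fout ω)) ω.2.1} := fun S =>
    measurableSet_fail (d := d) hfin hfout γ _ (τ.measurable_est n _)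
  have hCm : ∀ S, MeasurableSet (C S) := fun S => measurable_subconf (emb S) (hC0 S)
  set D : Conf d N → ℝ≥0∞ := fun ω =>
    ENNReal.ofReal η + ∑ S : Fin N → Bool, ENNReal.ofReal (pw (ber (Fin N) p) S) *
      (C S).indicator 1 ω with hD
  have hDm : Measurable D := by
    have h1 : Measurable fun ω : Conf d N => ∑ S : Fin N → Bool,
        ENNReal.ofReal (pw (ber (Fin N) p) S) * (C S).indicator (1 : Conf d N → ℝ≥0∞) ω :=
      Finset.measurable_sum _ fun S _ => (measurable_one.indicator (hCm S)).const_mul _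
    exact Measurable.const_add h1 _
  calc pf fin fout (starEst hfin hfout hφ hφi (γ - ε)) n (γ - ε) N
      = ∫⁻ x, marks N (Prod.mk x ⁻¹' {ω : Conf d N |
          Fail (γ - ε) (star φ fin fout (γ - ε) ω.1 (graph fin fout ω)) ω.2.1})
          ∂(Measure.pi fun _ => cond volume (box d n)) := Measure.prod_apply hA
    _ ≤ ∫⁻ x, ∫⁻ m, D (x, m) ∂(marks N) ∂(Measure.pi fun _ => cond volume (box d n)) := by
        refine lintegral_mono fun x => ?_
        refine (hN₀ d fin fout hfin hfout φ τ n N hN x).trans (le_of_eq ?_)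
        refine lintegral_congr fun m => ?_
        simp only [hD]
        congr 1
    _ = ∫⁻ ω, D ω ∂(confLaw d n N) := (lintegral_prod _ hDm.aemeasurable).symm
    _ = ENNReal.ofReal η + ∑ S : Fin N → Bool, ENNReal.ofReal (pw (ber (Fin N) p) S) *
          pf fin fout τ n γ (sub S).card := by
        have hpr : IsProbabilityMeasure (confLaw d n N) := by
          unfold confLaw; infer_instance
        simp only [hD]
        rw [lintegral_add_left measurable_const, lintegral_const, measure_univ, mul_one,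
          lintegral_finsetSum _ (fun S _ => (measurable_one.indicator (hCm S)).const_mul _)]
        congr 1
        refine Finset.sum_congr rfl fun S _ => ?_
        rw [lintegral_const_mul _ (measurable_one.indicator (hCm S)),
          lintegral_indicator_one (hCm S), pf, ← map_subconf (d := d) n (emb S) (emb_injective S),
          Measure.map_apply (measurable_subconf _) (hC0 S)]

/-! ### The law of the overlap -/

theorem overlap_le_one {N : ℕ} (a b : Fin N → Bool) : overlap a b ≤ 1 := by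
  unfold overlap
  split_ifs with h
  · exact le_refl _
  · have hN : (0 : ℝ) < N := by exact_mod_cast Nat.pos_of_ne_zero h
    rw [div_le_one hN]
    refine (Finset.abs_sum_le_sum_abs _ _).trans ?_
    simp [abs_mul, abs_sg]

theorem overlap_nonneg {N : ℕ} (a b : Fin N → Bool) : 0 ≤ overlap a b := by
  unfold overlap
  split_ifs <;> positivity

theorem overlap_lt_iff {N : ℕ} {γ : ℝ} (hγ : γ ≤ 1) (a b : Fin N → Bool) :
    overlap a b < γ ↔ Fail γ a b := by
  unfold overlap Fail
  split_ifs with h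
  · subst h
    simp only [Finset.univ_eq_empty, Finset.sum_empty, abs_zero, Nat.cast_zero, mul_zero,
      lt_irrefl, iff_false, not_lt]
    exact hγ
  · have hN : (0 : ℝ) < N := by exact_mod_cast Nat.pos_of_ne_zero h
    rw [div_lt_iff₀ hN]

theorem measurableSet_sigma' {A : Set (Σ N, Conf d N)}
    (h : ∀ N, MeasurableSet (Sigma.mk N ⁻¹' A)) : MeasurableSet A :=
  MeasurableSpace.measurableSet_iInf.2 h

theorem measurable_mk (N : ℕ) : Measurable (Sigma.mk N : Conf d N → Σ N, Conf d N) := by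
  intro A hA
  exact MeasurableSpace.measurableSet_iInf.1 hA N

theorem measurableSet_ov (hfin : Measurable fin) (hfout : Measurable fout) (τ : Estimator d)
    (n γ : ℝ) (hγ : γ ≤ 1) :
    MeasurableSet {ω : Σ N, Conf d N | ov fin fout τ n ω < γ} := by
  refine measurableSet_sigma' fun N => ?_
  have : Sigma.mk N ⁻¹' {ω : Σ N, Conf d N | ov fin fout τ n ω < γ} =
      {ω : Conf d N | Fail γ (τ.est n N ω.1 (graph fin fout ω)) ω.2.1} := by
    ext ω; exact overlap_lt_iff hγ _ _
  rw [this]
  exact measurableSet_fail hfin hfout γ _ (τ.measurable_est n N)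

theorem law_ov (hfin : Measurable fin) (hfout : Measurable fout) (τ : Estimator d)
    (lam n γ : ℝ) (hγ : γ ≤ 1) :
    law d lam n {ω | ov fin fout τ n ω < γ} = ∑' N, poi (lam * n) N * pf fin fout τ n γ N := by
  have hA := measurableSet_ov hfin hfout τ n γ hγ
  rw [law, Measure.sum_apply _ hA]
  refine tsum_congr fun N => ?_
  rw [Measure.smul_apply, Measure.map_apply (measurable_mk N) hA, smul_eq_mul, pf]
  congr 2
  ext ω; exact overlap_lt_iff hγ _ _

theorem law_univ {lam n : ℝ} (hlam : 0 ≤ lam * n) [IsProbabilityMeasure (cond volume (box d n))] :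
    IsProbabilityMeasure (law d lam n) := by
  constructor
  rw [law, Measure.sum_apply _ MeasurableSet.univ]
  have : ∀ N, (poi (lam * n) N • (confLaw d n N).map (Sigma.mk N)) Set.univ =
      poi (lam * n) N := by
    intro N
    have hpr : IsProbabilityMeasure (confLaw d n N) := by
      unfold confLaw; infer_instance
    rw [Measure.smul_apply, Measure.map_apply (measurable_mk N) MeasurableSet.univ,
      Set.preimage_univ, measure_univ, smul_eq_mul, mul_one]
  simp only [this]
  exact tsum_poi hlam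

theorem volume_box (d : ℕ) (n : ℝ) :
    volume (box d n) = ENNReal.ofReal (n ^ (1 / (d : ℝ))) ^ d := by
  have h1 : box d n = (@WithLp.ofLp 2 (Fin d → ℝ)) ⁻¹'
      (Set.univ.pi fun _ => Set.Icc (-(n ^ (1 / (d : ℝ)) / 2)) (n ^ (1 / (d : ℝ)) / 2)) := by
    ext x
    simp only [box, Set.mem_preimage, Set.mem_pi, Set.mem_univ, forall_true_left]
    rfl
  rw [h1, (PiLp.volume_preserving_ofLp (Fin d)).measure_preimage
    (MeasurableSet.univ_pi fun _ => measurableSet_Icc).nullMeasurableSet, volume_pi_pi]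
  simp only [Real.volume_Icc, Finset.prod_const, Finset.card_univ, Fintype.card_fin]
  congr 2
  ring

theorem prob_box (d : ℕ) {n : ℝ} (hn : 0 < n) : IsProbabilityMeasure (cond volume (box d n)) := by
  have h0 : 0 < n ^ (1 / (d : ℝ)) := Real.rpow_pos_of_pos hn _
  apply cond_isProbabilityMeasure_of_finite
  · rw [volume_box d n]
    exact (ENNReal.pow_pos (ENNReal.ofReal_pos.2 h0) _).ne'
  · rw [volume_box d n]
    exact ENNReal.pow_ne_top ENNReal.ofReal_ne_top

theorem tendsto_poi (N : ℕ) : Tendsto (fun m => poi m N) atTop (𝓝 0) := by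
  have h1 := (Real.tendsto_pow_mul_exp_neg_atTop_nhds_zero N).div_const (N.factorial : ℝ)
  rw [zero_div] at h1
  have h2 := (ENNReal.continuous_ofReal.tendsto 0).comp h1
  rw [ENNReal.ofReal_zero] at h2
  refine h2.congr fun m => ?_
  simp only [Function.comp_apply, poi]
  rw [mul_comm]

/-- The overlap is asymptotically at least `γ` iff the probability of less tends to zero. -/
theorem tendsto_iff (hfin : Measurable fin) (hfout : Measurable fout) (τ : Estimator d)
    {lam γ : ℝ} (hlam : 0 < lam) (hγ : γ ≤ 1) :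
    Tendsto (fun n : ℝ => law d lam n {ω | γ ≤ ov fin fout τ n ω}) atTop (𝓝 1) ↔
      Tendsto (fun n : ℝ => law d lam n {ω | ov fin fout τ n ω < γ}) atTop (𝓝 0) := by
  have hcompl : ∀ n : ℝ, {ω : Σ N, Conf d N | γ ≤ ov fin fout τ n ω} =
      {ω | ov fin fout τ n ω < γ}ᶜ := by
    intro n; ext ω
    show γ ≤ ov fin fout τ n ω ↔ ¬ (ov fin fout τ n ω < γ)
    exact not_lt.symm
  have hA := fun n => measurableSet_ov hfin hfout τ n γ hγ
  have hev : ∀ᶠ n : ℝ in atTop, law d lam n {ω | γ ≤ ov fin fout τ n ω} =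
      1 - law d lam n {ω | ov fin fout τ n ω < γ} := by
    filter_upwards [eventually_gt_atTop 0] with n hn
    have := prob_box d hn
    have := law_univ (d := d) (lam := lam) (n := n) (by positivity)
    rw [hcompl, prob_compl_eq_one_sub (hA n)]
  have hev2 : ∀ᶠ n : ℝ in atTop, law d lam n {ω | ov fin fout τ n ω < γ} =
      1 - law d lam n {ω | γ ≤ ov fin fout τ n ω} := by
    filter_upwards [eventually_gt_atTop 0] with n hn
    have := prob_box d hn
    have := law_univ (d := d) (lam := lam) (n := n) (by positivity)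
    rw [hcompl, ← prob_compl_eq_one_sub (hA n).compl, compl_compl]
  constructor
  · intro h
    have h1 := ENNReal.Tendsto.sub (tendsto_const_nhds (x := (1 : ℝ≥0∞))) h
      (Or.inl ENNReal.one_ne_top)
    rw [tsub_self] at h1
    exact h1.congr' (hev2.mono fun n hn => hn.symm)
  · intro h
    have h1 := ENNReal.Tendsto.sub (tendsto_const_nhds (x := (1 : ℝ≥0∞))) h
      (Or.inl ENNReal.one_ne_top)
    rw [tsub_zero] at h1
    exact h1.congr' (hev.mono fun n hn => hn.symm)

/-- The transfer of an overlap from intensity `lam` to a larger intensity `lam'`. -/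
theorem transfer (hfin : Measurable fin) (hfout : Measurable fout) {lam lam' : ℝ} (hlam : 0 < lam)
    (hlt : lam < lam') {γ ε : ℝ} (hγ0 : 0 ≤ γ) (hγ1 : γ ≤ 1) (hε : 0 < ε) (τ : Estimator d)
    (h : Tendsto (fun n : ℝ => law d lam n {ω | ov fin fout τ n ω < γ}) atTop (𝓝 0)) :
    ∃ τ' : Estimator d,
      Tendsto (fun n : ℝ => law d lam' n {ω | ov fin fout τ' n ω < γ - ε}) atTop (𝓝 0) := by
  obtain ⟨φ, hφ⟩ := exists_measurableEmbedding_real (Pt d)
  have hlam' : 0 < lam' := hlam.trans hlt
  set p := lam / lam' with hp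
  have hp0 : 0 < p := div_pos hlam hlam'
  have hp1 : p < 1 := (div_lt_one hlam').2 hlt
  refine ⟨starEst hfin hfout hφ.measurable hφ.injective (γ - ε), ?_⟩
  rw [ENNReal.tendsto_nhds_zero]
  intro e he
  obtain ⟨η, hη, hηe⟩ : ∃ η : ℝ, 0 < η ∧
      ENNReal.ofReal η + ENNReal.ofReal η + ENNReal.ofReal η ≤ e := by
    by_cases htop : e = ⊤
    · exact ⟨1, one_pos, htop ▸ le_top⟩
    · have h1 : 0 < e.toReal := ENNReal.toReal_pos he.ne' htop
      refine ⟨e.toReal / 3, by positivity, ?_⟩
      rw [← ENNReal.ofReal_add (by positivity) (by positivity),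
        ← ENNReal.ofReal_add (by positivity) (by positivity)]
      refine ENNReal.ofReal_le_of_le_toReal ?_
      linarith
  obtain ⟨N₀, hN₀⟩ := conf_bound hp0 hp1 hγ0 hγ1 hε hη
  have hη' : 0 < ENNReal.ofReal η := ENNReal.ofReal_pos.2 hη
  have h1 : ∀ᶠ n : ℝ in atTop, law d lam n {ω | ov fin fout τ n ω < γ} ≤ ENNReal.ofReal η :=
    ENNReal.tendsto_nhds_zero.1 h _ hη'
  have h2 : ∀ᶠ n : ℝ in atTop, ∑ N ∈ Finset.range N₀, poi (lam' * n) N ≤ ENNReal.ofReal η := by
    refine ENNReal.tendsto_nhds_zero.1 ?_ _ hη'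
    have h3 : Tendsto (fun n : ℝ => ∑ N ∈ Finset.range N₀, poi (lam' * n) N) atTop
        (𝓝 (∑ _N ∈ Finset.range N₀, 0)) := by
      refine tendsto_finsetSum _ fun N _ => ?_
      exact (tendsto_poi N).comp (tendsto_id.const_mul_atTop hlam')
    simpa using h3
  filter_upwards [h1, h2, eventually_gt_atTop 0] with n h1 h2 hn
  have hprob := prob_box d hn
  refine le_trans ?_ hηe
  rw [law_ov hfin hfout _ _ _ _ (by linarith)]
  rw [law_ov hfin hfout _ _ _ _ hγ1] at h1
  have hm : 0 ≤ lam' * n := by positivity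
  have hthin := poisson_thin hp0 hp1 hm (fun k => pf fin fout τ n γ k)
  have hpm : p * (lam' * n) = lam * n := by rw [hp]; field_simp
  rw [hpm] at hthin
  calc ∑' N, poi (lam' * n) N *
        pf fin fout (starEst hfin hfout hφ.measurable hφ.injective (γ - ε)) n (γ - ε) N
      ≤ ∑' N, ((if N ∈ Finset.range N₀ then poi (lam' * n) N else 0) +
          poi (lam' * n) N * ENNReal.ofReal η +
          poi (lam' * n) N * ∑ S : Fin N → Bool, ENNReal.ofReal (pw (ber (Fin N) p) S) *
            pf fin fout τ n γ (sub S).card) := by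
        refine ENNReal.tsum_le_tsum fun N => ?_
        by_cases hN : N ∈ Finset.range N₀
        · rw [if_pos hN, add_assoc]
          refine le_add_right ?_
          have hpr : IsProbabilityMeasure (confLaw d n N) := by
            unfold confLaw; infer_instance
          exact mul_le_of_le_one_right' prob_le_one
        · rw [if_neg hN, zero_add, ← mul_add]
          rw [Finset.mem_range, not_lt] at hN
          exact mul_le_mul_right
            (hN₀ d fin fout hfin hfout φ hφ.measurable hφ.injective τ n hprob N hN) _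
    _ = ∑ N ∈ Finset.range N₀, poi (lam' * n) N + ENNReal.ofReal η +
          ∑' k, poi (lam * n) k * pf fin fout τ n γ k := by
        rw [ENNReal.tsum_add, ENNReal.tsum_add, hthin, ENNReal.tsum_mul_right, tsum_poi hm,
          one_mul]
        congr 2
        rw [tsum_eq_sum (s := Finset.range N₀) (fun N hN => if_neg hN)]
        exact Finset.sum_congr rfl fun N hN => if_pos hN
    _ ≤ ENNReal.ofReal η + ENNReal.ofReal η + ENNReal.ofReal η := by
        gcongr

/-! ### The optimal overlap -/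

/-- A constant estimator. -/
def constEst (d : ℕ) : Estimator d where
  est _ _ _ _ := fun _ => true
  measurable_est _ _ _ := measurable_const
  equivariant _ _ _ _ _ _ := rfl

instance : Nonempty (Estimator d) := ⟨constEst d⟩

theorem gam_set_le_one (τ : Estimator d) {lam γ : ℝ}
    (h : Tendsto (fun n : ℝ => law d lam n {ω | γ ≤ ov fin fout τ n ω}) atTop (𝓝 1)) : γ ≤ 1 := by
  by_contra hγ
  rw [not_le] at hγ
  have h1 : ∀ n : ℝ, {ω : Σ N, Conf d N | γ ≤ ov fin fout τ n ω} = ∅ := by
    intro n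
    ext ω
    simp only [Set.mem_empty_iff_false, iff_false]
    intro hω
    have h2 : γ ≤ ov fin fout τ n ω := hω
    have h3 : ov fin fout τ n ω ≤ 1 := overlap_le_one _ _
    linarith
  simp only [h1, measure_empty] at h
  exact zero_ne_one (tendsto_nhds_unique tendsto_const_nhds h)

theorem gam_bdd (τ : Estimator d) (lam : ℝ) :
    BddAbove {γ : ℝ | 0 ≤ γ ∧
      Tendsto (fun n : ℝ => law d lam n {ω | γ ≤ ov fin fout τ n ω}) atTop (𝓝 1)} :=
  ⟨1, fun _ h => gam_set_le_one τ h.2⟩

theorem zero_mem (τ : Estimator d) {lam : ℝ} (hlam : 0 < lam) :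
    (0 : ℝ) ∈ {γ : ℝ | 0 ≤ γ ∧
      Tendsto (fun n : ℝ => law d lam n {ω | γ ≤ ov fin fout τ n ω}) atTop (𝓝 1)} := by
  refine ⟨le_refl _, ?_⟩
  refine tendsto_const_nhds.congr' ?_
  filter_upwards [eventually_gt_atTop 0] with n hn
  have := prob_box d hn
  have := law_univ (d := d) (lam := lam) (n := n) (by positivity)
  have h1 : {ω : Σ N, Conf d N | 0 ≤ ov fin fout τ n ω} = Set.univ := by
    ext ω
    exact ⟨fun _ => Set.mem_univ _, fun _ => overlap_nonneg _ _⟩
  rw [h1, measure_univ]

theorem gam_le_one (τ : Estimator d) {lam : ℝ} (hlam : 0 < lam) : gam fin fout lam τ ≤ 1 :=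
  csSup_le ⟨0, zero_mem τ hlam⟩ fun _ h => gam_set_le_one τ h.2

theorem gam_nonneg (τ : Estimator d) {lam : ℝ} (hlam : 0 < lam) : 0 ≤ gam fin fout lam τ :=
  le_csSup (gam_bdd τ lam) (zero_mem τ hlam)

theorem gam_le_opt (τ : Estimator d) {lam : ℝ} (hlam : 0 < lam) :
    gam fin fout lam τ ≤ optOverlap d fin fout lam :=
  le_ciSup (f := fun τ : Estimator d => gam fin fout lam τ)
    ⟨1, by rintro _ ⟨τ, rfl⟩; exact gam_le_one τ hlam⟩ τ

/-- **Monotonicity of the optimal overlap.** -/
theorem optOverlap_mono (hfin : Measurable fin) (hfout : Measurable fout) :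
    MonotoneOn (optOverlap d fin fout) (Set.Ioi 0) := by
  intro lam hlam lam' hlam' hle
  have hlam : 0 < lam := hlam
  have hlam' : 0 < lam' := hlam'
  rcases hle.eq_or_lt with rfl | hlt
  · exact le_refl _
  refine ciSup_le fun τ => csSup_le ⟨0, zero_mem τ hlam⟩ fun γ hγ => ?_
  have hγ1 : γ ≤ 1 := gam_set_le_one τ hγ.2
  refine le_of_forall_pos_sub_le fun ε hε => ?_
  by_cases h0 : γ - ε < 0
  · exact h0.le.trans ((gam_nonneg τ hlam').trans (gam_le_opt τ hlam'))
  · rw [not_lt] at h0
    obtain ⟨τ', hτ'⟩ := transfer hfin hfout hlam hlt hγ.1 hγ1 hε τ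
      ((tendsto_iff hfin hfout τ hlam hγ1).1 hγ.2)
    refine le_trans ?_ (gam_le_opt τ' hlam')
    exact le_csSup (gam_bdd τ' lam')
      ⟨h0, (tendsto_iff hfin hfout τ' hlam' (by linarith)).2 hτ'⟩

end Pool.Agent.K7.H99.OV
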