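import Pool.Agent.K7.H99.OV.Core

/-!
# Basic facts on the spatial two-community model
-/

open MeasureTheory ProbabilityTheory Filter Topology

open scoped ENNReal

namespace Pool.Agent.K7.H99.OV

/-! ### Basic facts -/

instance : IsProbabilityMeasure coin := ⟨by
  simp [coin, ENNReal.inv_two_add_inv_two]⟩

instance : IsProbabilityMeasure unif := ⟨by simp [unif]⟩

instance (N : ℕ) : IsProbabilityMeasure (marks N) := by
  unfold marks; infer_instance

/-- Restricting a family of i.i.d. variables to a subfamily. -/
theorem map_comp_pi {ι κ α : Type} [Fintype ι] [Fintype κ] [MeasurableSpace α] (μ : Measure α)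
    [IsProbabilityMeasure μ] (j : κ → ι) (hj : Function.Injective j) :
    (Measure.pi (fun _ : ι => μ)).map (fun x => x ∘ j) = Measure.pi (fun _ : κ => μ) := by
  classical
  have hm : Measurable (fun x : ι → α => x ∘ j) :=
    measurable_pi_lambda _ fun k => measurable_pi_apply _
  symm
  apply Measure.pi_eq
  intro s hs
  rw [Measure.map_apply hm (MeasurableSet.univ_pi hs)]
  have h1 : (fun x : ι → α => x ∘ j) ⁻¹' (Set.univ.pi s) =
      Set.univ.pi (Function.extend j s (fun _ => Set.univ)) := by
    ext x
    simp only [Set.mem_preimage, Set.mem_pi, Set.mem_univ, forall_true_left, Function.comp_apply]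
    constructor
    · intro h i
      by_cases hi : ∃ k, j k = i
      · obtain ⟨k, rfl⟩ := hi
        rw [hj.extend_apply]; exact h k
      · rw [Function.extend_apply' _ _ _ hi]; exact Set.mem_univ _
    · intro h k
      have := h (j k)
      rwa [hj.extend_apply] at this
  rw [h1, Measure.pi_pi]
  have h2 : ∏ k, μ (s k) = ∏ i ∈ Finset.univ.image j, μ (Function.extend j s (fun _ => Set.univ) i) := by
    rw [Finset.prod_image (fun a _ b _ h => hj h)]
    refine Finset.prod_congr rfl fun k _ => ?_
    rw [hj.extend_apply]
  rw [h2]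
  symm
  apply Finset.prod_subset (Finset.subset_univ _)
  intro i _ hi
  rw [Function.extend_apply', measure_univ]
  rintro ⟨k, rfl⟩
  exact hi (Finset.mem_image_of_mem _ (Finset.mem_univ _))

/-- Restriction of the marks. -/
def submarks {N k : ℕ} (j : Fin k → Fin N) (m : (Fin N → Bool) × (Sym2 (Fin N) → ℝ)) :
    (Fin k → Bool) × (Sym2 (Fin k) → ℝ) :=
  (m.1 ∘ j, m.2 ∘ Sym2.map j)

/-- Restriction of a configuration. -/
def subconf {d N k : ℕ} (j : Fin k → Fin N) (ω : Conf d N) : Conf d k :=
  (ω.1 ∘ j, submarks j ω.2)

theorem measurable_comp' {ι κ α : Type} [MeasurableSpace α] (j : κ → ι) :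
    Measurable (fun x : ι → α => x ∘ j) :=
  measurable_pi_lambda _ fun k => measurable_pi_apply _

theorem measurable_submarks {N k : ℕ} (j : Fin k → Fin N) : Measurable (submarks j) :=
  ((measurable_comp' j).comp measurable_fst).prodMk
    ((measurable_comp' (Sym2.map j)).comp measurable_snd)

theorem measurable_subconf {d N k : ℕ} (j : Fin k → Fin N) :
    Measurable (subconf (d := d) j) :=
  ((measurable_comp' j).comp measurable_fst).prodMk ((measurable_submarks j).comp measurable_snd)

theorem map_submarks {N k : ℕ} (j : Fin k → Fin N) (hj : Function.Injective j) :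
    (marks N).map (submarks j) = marks k := by
  have h := Measure.map_prod_map (Measure.pi fun _ : Fin N => coin)
    (Measure.pi fun _ : Sym2 (Fin N) => unif) (measurable_comp' j) (measurable_comp' (Sym2.map j))
  rw [map_comp_pi coin j hj, map_comp_pi unif _ (Sym2.map.injective hj)] at h
  exact h.symm

theorem map_subconf {d N k : ℕ} (n : ℝ) [IsProbabilityMeasure (cond volume (box d n))]
    (j : Fin k → Fin N) (hj : Function.Injective j) :
    (confLaw d n N).map (subconf j) = confLaw d n k := by
  have h := Measure.map_prod_map (Measure.pi fun _ : Fin N => cond volume (box d n))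
    (marks N) (measurable_comp' j) (measurable_submarks j)
  rw [map_comp_pi _ j hj, map_submarks j hj] at h
  exact h.symm

theorem graph_subconf {d N k : ℕ} (fin fout : ℝ → ℝ) (j : Fin k → Fin N)
    (hj : Function.Injective j) (ω : Conf d N) :
    graph fin fout (subconf j ω) = (graph fin fout ω).comap j := by
  ext a b
  show (a ≠ b ∧ _) ↔ (j a ≠ j b ∧ _)
  rw [hj.ne_iff]
  exact Iff.rfl

/-- The graph is a measurable function of the configuration. -/
theorem measurable_adj {d N : ℕ} {fin fout : ℝ → ℝ} (hfin : Measurable fin)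
    (hfout : Measurable fout) (i j : Fin N) :
    MeasurableSet {ω : Conf d N | (graph fin fout ω).Adj i j} := by
  have h1 : Measurable fun ω : Conf d N => ω.2.2 s(i, j) := by fun_prop
  have h2 : Measurable fun ω : Conf d N => ‖ω.1 i - ω.1 j‖ := by fun_prop
  have h3 : MeasurableSet {ω : Conf d N | ω.2.1 i = ω.2.1 j} :=
    measurableSet_eq_fun (by fun_prop) (by fun_prop)
  have h4 : Measurable fun ω : Conf d N =>
      conn fin fout (ω.2.1 i) (ω.2.1 j) ‖ω.1 i - ω.1 j‖ :=
    Measurable.ite h3 (hfin.comp h2) (hfout.comp h2)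
  have h5 : {ω : Conf d N | (graph fin fout ω).Adj i j} = {_ω : Conf d N | i ≠ j} ∩
      {ω : Conf d N | ω.2.2 s(i, j) ≤ conn fin fout (ω.2.1 i) (ω.2.1 j) ‖ω.1 i - ω.1 j‖} := rfl
  rw [h5]
  exact (MeasurableSet.const _).inter (measurableSet_le h1 h4)

theorem measurable_graph {d N : ℕ} {fin fout : ℝ → ℝ} (hfin : Measurable fin)
    (hfout : Measurable fout) (G : SimpleGraph (Fin N)) :
    MeasurableSet {ω : Conf d N | graph fin fout ω = G} := by
  have : {ω : Conf d N | graph fin fout ω = G} =
      ⋂ i, ⋂ j, {ω : Conf d N | (graph fin fout ω).Adj i j ↔ G.Adj i j} := by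
    ext ω
    constructor
    · rintro rfl
      exact Set.mem_iInter.2 fun i => Set.mem_iInter.2 fun j => Iff.rfl
    · intro h
      refine SimpleGraph.ext ?_
      funext i j
      exact propext (Set.mem_iInter.1 (Set.mem_iInter.1 h i) j)
  rw [this]
  refine MeasurableSet.iInter fun i => MeasurableSet.iInter fun j => ?_
  have h1 := measurable_adj (d := d) hfin hfout i j
  by_cases hG : G.Adj i j
  · have : {ω : Conf d N | (graph fin fout ω).Adj i j ↔ G.Adj i j} =
        {ω : Conf d N | (graph fin fout ω).Adj i j} := by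
      ext ω; exact iff_true_right hG
    rw [this]; exact h1
  · have : {ω : Conf d N | (graph fin fout ω).Adj i j ↔ G.Adj i j} =
        {ω : Conf d N | (graph fin fout ω).Adj i j}ᶜ := by
      ext ω; exact iff_false_right hG
    rw [this]; exact h1.compl

end Pool.Agent.K7.H99.OV
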