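import Pool.Agent.K7.H99.OV.Thin

/-!
# The optimal estimator for a given threshold

For a threshold `t`, the labelling minimising the conditional probability (given the points and
the graph) that the overlap is below `t` is a measurable, equivariant estimator, and its failure
probability is at most that of any randomised rule.
-/

open MeasureTheory ProbabilityTheory Filter Topology

open scoped ENNReal

namespace Pool.Agent.K7.H99.OV

/-! ### Measurable minimisers over a finite set -/

/-- A minimiser of `f` over the list `l`. -/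
noncomputable def amin {Θ : Type} (θ₀ : Θ) (f : Θ → ℝ≥0∞) : List Θ → Θ
  | [] => θ₀
  | a :: l => if f a ≤ f (amin θ₀ f l) then a else amin θ₀ f l

theorem amin_le {Θ : Type} (θ₀ : Θ) (f : Θ → ℝ≥0∞) (l : List Θ) :
    ∀ θ ∈ l, f (amin θ₀ f l) ≤ f θ := by
  induction l with
  | nil => simp
  | cons a l ih =>
    intro θ hθ
    rw [List.mem_cons] at hθ
    rw [amin]
    split_ifs with h
    · rcases hθ with rfl | hθ
      · exact le_refl _
      · exact h.trans (ih θ hθ)
    · rcases hθ with rfl | hθ
      · exact (not_le.1 h).le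
      · exact ih θ hθ

theorem measurable_amin {X Θ : Type} [MeasurableSpace X] [MeasurableSpace Θ] [Countable Θ]
    [MeasurableSingletonClass Θ] (θ₀ : Θ) (f : X → Θ → ℝ≥0∞)
    (hf : ∀ θ, Measurable fun x => f x θ) (l : List Θ) :
    Measurable fun x => amin θ₀ (f x) l := by
  induction l with
  | nil => exact measurable_const
  | cons a l ih =>
    have h1 : Measurable fun q : X × Θ => f q.1 q.2 := measurable_from_prod_countable_left hf
    have h2 : Measurable fun x => f x (amin θ₀ (f x) l) := h1.comp (measurable_id.prodMk ih)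
    simp only [amin]
    exact Measurable.ite (measurableSet_le (hf a) h2) measurable_const ih

/-- Piecewise definitions along a countable-valued function. -/
theorem measurable_select {X P Y : Type} [MeasurableSpace X] [MeasurableSpace Y] [Countable P]
    (s : X → P) (hs : ∀ p, MeasurableSet {x | s x = p}) (F : P → X → Y)
    (hF : ∀ p, Measurable (F p)) : Measurable fun x => F (s x) x := by
  intro A hA
  have : (fun x => F (s x) x) ⁻¹' A = ⋃ p, {x | s x = p} ∩ (F p) ⁻¹' A := by
    ext x
    constructor
    · intro h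
      exact Set.mem_iUnion.2 ⟨s x, rfl, h⟩
    · intro h
      obtain ⟨p, hp, hx⟩ := Set.mem_iUnion.1 h
      have hp' : s x = p := hp
      subst hp'
      exact hx
  rw [this]
  exact MeasurableSet.iUnion fun p => (hs p).inter (hF p hA)

/-! ### Conditional failure probabilities -/

/-- The overlap of `θ` and `z` is below `t`. -/
def Fail {N : ℕ} (t : ℝ) (θ z : Fin N → Bool) : Prop :=
  |∑ i, sg (θ i) * sg (z i)| < t * N

/-- The (unnormalised) conditional failure probability of the labelling `θ` given that the points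
are `x` and the graph is `G`. -/
noncomputable def Psi {d N : ℕ} (fin fout : ℝ → ℝ) (t : ℝ) (x : Fin N → Pt d)
    (G : SimpleGraph (Fin N)) (θ : Fin N → Bool) : ℝ≥0∞ :=
  marks N {m | graph fin fout (x, m) = G ∧ Fail t θ m.1}

variable {d : ℕ} {fin fout : ℝ → ℝ}

theorem measurableSet_labels {N : ℕ} (P : (Fin N → Bool) → Prop) :
    MeasurableSet {ω : Conf d N | P ω.2.1} := by
  have h1 : MeasurableSet {z : Fin N → Bool | P z} := Set.Countable.measurableSet (Set.to_countable _)
  exact (measurable_fst.comp measurable_snd) h1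

theorem measurable_Psi (hfin : Measurable fin) (hfout : Measurable fout) {N : ℕ} (t : ℝ)
    (G : SimpleGraph (Fin N)) (θ : Fin N → Bool) :
    Measurable fun x : Fin N → Pt d => Psi fin fout t x G θ := by
  have h1 : MeasurableSet {ω : Conf d N | graph fin fout ω = G ∧ Fail t θ ω.2.1} :=
    (measurable_graph hfin hfout G).inter (measurableSet_labels (Fail t θ))
  exact measurable_measure_prodMk_left h1

theorem measurableSet_section (hfin : Measurable fin) (hfout : Measurable fout) {N : ℕ} (t : ℝ)
    (x : Fin N → Pt d) (G : SimpleGraph (Fin N)) (θ : Fin N → Bool) :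
    MeasurableSet {m | graph fin fout (x, m) = G ∧ Fail t θ m.1} := by
  have h1 : MeasurableSet {ω : Conf d N | graph fin fout ω = G ∧ Fail t θ ω.2.1} :=
    (measurable_graph hfin hfout G).inter (measurableSet_labels (Fail t θ))
  exact (measurable_prodMk_left (x := x)) h1

theorem comap_inj {N : ℕ} (π : Equiv.Perm (Fin N)) (A B : SimpleGraph (Fin N)) :
    A.comap π = B.comap π ↔ A = B := by
  constructor
  · intro h
    ext a b
    have := congrArg (fun C : SimpleGraph (Fin N) => C.Adj (π.symm a) (π.symm b)) h
    simpa using this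
  · rintro rfl; rfl

theorem fail_perm {N : ℕ} (t : ℝ) (π : Equiv.Perm (Fin N)) (θ z : Fin N → Bool) :
    Fail t (θ ∘ π) (z ∘ π) ↔ Fail t θ z := by
  unfold Fail
  have : ∑ i, sg ((θ ∘ π) i) * sg ((z ∘ π) i) = ∑ i, sg (θ i) * sg (z i) :=
    Equiv.sum_comp π (fun i => sg (θ i) * sg (z i))
  rw [this]

theorem Psi_perm (hfin : Measurable fin) (hfout : Measurable fout) {N : ℕ} (t : ℝ)
    (x : Fin N → Pt d) (G : SimpleGraph (Fin N)) (θ : Fin N → Bool) (π : Equiv.Perm (Fin N)) :
    Psi fin fout t (x ∘ π) (G.comap π) (θ ∘ π) = Psi fin fout t x G θ := by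
  unfold Psi
  rw [← map_submarks π π.injective, Measure.map_apply (measurable_submarks _)
    (measurableSet_section hfin hfout t _ _ _), map_submarks π π.injective]
  congr 1
  ext m
  show (graph fin fout (subconf π ((x, m) : Conf d N)) = G.comap π ∧ Fail t (θ ∘ π) (m.1 ∘ π)) ↔
    (graph fin fout (x, m) = G ∧ Fail t θ m.1)
  rw [graph_subconf fin fout π π.injective, comap_inj, fail_perm]

/-! ### The optimal estimator -/

/-- The permutation sorting the points with respect to the key `φ`. -/
noncomputable def srt {N : ℕ} (φ : Pt d → ℝ) (x : Fin N → Pt d) : Equiv.Perm (Fin N) := Tuple.sort (φ ∘ x)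

/-- The optimal labelling. -/
noncomputable def star (φ : Pt d → ℝ) (fin fout : ℝ → ℝ) (t : ℝ) {N : ℕ} (x : Fin N → Pt d)
    (G : SimpleGraph (Fin N)) : Fin N → Bool :=
  amin (fun _ => true) (Psi fin fout t (x ∘ srt φ x) (G.comap (srt φ x))) Finset.univ.toList ∘
    (srt φ x).symm

theorem star_opt (hfin : Measurable fin) (hfout : Measurable fout) (φ : Pt d → ℝ) (t : ℝ) {N : ℕ}
    (x : Fin N → Pt d) (G : SimpleGraph (Fin N)) (θ : Fin N → Bool) :
    Psi fin fout t x G (star φ fin fout t x G) ≤ Psi fin fout t x G θ := by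
  set π := srt φ x with hπ
  rw [← Psi_perm hfin hfout t x G (star φ fin fout t x G) π, ← Psi_perm hfin hfout t x G θ π]
  have h1 : star φ fin fout t x G ∘ π =
      amin (fun _ => true) (Psi fin fout t (x ∘ π) (G.comap π)) Finset.univ.toList := by
    funext i
    simp [star, ← hπ]
  rw [h1]
  exact amin_le _ _ _ _ (by simp)

theorem measurableSet_srt {N : ℕ} {φ : Pt d → ℝ} (hφ : Measurable φ) (π : Equiv.Perm (Fin N)) :
    MeasurableSet {x : Fin N → Pt d | srt φ x = π} := by
  have h0 : ∀ i, Measurable fun x : Fin N → Pt d => φ (x i) := fun i =>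
    hφ.comp (measurable_pi_apply i)
  have h1 : {x : Fin N → Pt d | srt φ x = π} =
      (⋂ i, ⋂ j, {x | i ≤ j → φ (x (π i)) ≤ φ (x (π j))}) ∩
      (⋂ i, ⋂ j, {x | (i < j ∧ ¬ π i < π j) → φ (x (π i)) ≠ φ (x (π j))}) := by
    ext x
    show Tuple.sort (φ ∘ x) = π ↔ _
    rw [eq_comm, Tuple.eq_sort_iff, Set.mem_inter_iff]
    refine and_congr ?_ ?_
    · constructor
      · intro h
        exact Set.mem_iInter.2 fun i => Set.mem_iInter.2 fun j => fun hij => h hij
      · intro h i j hij
        exact Set.mem_iInter.1 (Set.mem_iInter.1 h i) j hij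
    · constructor
      · intro h
        exact Set.mem_iInter.2 fun i => Set.mem_iInter.2 fun j => fun hij he =>
          hij.2 (h i j hij.1 he)
      · intro h i j hij he
        by_contra hc
        exact Set.mem_iInter.1 (Set.mem_iInter.1 h i) j ⟨hij, hc⟩ he
  rw [h1]
  refine MeasurableSet.inter ?_ ?_
  · refine MeasurableSet.iInter fun i => MeasurableSet.iInter fun j => ?_
    by_cases hij : i ≤ j
    · have : {x : Fin N → Pt d | i ≤ j → φ (x (π i)) ≤ φ (x (π j))} =
          {x | φ (x (π i)) ≤ φ (x (π j))} := by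
        ext x; exact ⟨fun h => h hij, fun h _ => h⟩
      rw [this]
      exact measurableSet_le (h0 _) (h0 _)
    · have : {x : Fin N → Pt d | i ≤ j → φ (x (π i)) ≤ φ (x (π j))} = Set.univ := by
        ext x; exact ⟨fun _ => Set.mem_univ _, fun _ h => absurd h hij⟩
      rw [this]; exact MeasurableSet.univ
  · refine MeasurableSet.iInter fun i => MeasurableSet.iInter fun j => ?_
    by_cases hij : i < j ∧ ¬ π i < π j
    · have : {x : Fin N → Pt d | (i < j ∧ ¬ π i < π j) → φ (x (π i)) ≠ φ (x (π j))} =
          {x | φ (x (π i)) = φ (x (π j))}ᶜ := by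
        ext x; exact ⟨fun h => h hij, fun h _ => h⟩
      rw [this]
      exact (measurableSet_eq_fun (h0 _) (h0 _)).compl
    · have : {x : Fin N → Pt d | (i < j ∧ ¬ π i < π j) → φ (x (π i)) ≠ φ (x (π j))} =
          Set.univ := by
        ext x; exact ⟨fun _ => Set.mem_univ _, fun _ h => absurd h hij⟩
      rw [this]; exact MeasurableSet.univ

theorem measurable_star (hfin : Measurable fin) (hfout : Measurable fout) {φ : Pt d → ℝ}
    (hφ : Measurable φ) (t : ℝ) {N : ℕ} (G : SimpleGraph (Fin N)) :
    Measurable fun x : Fin N → Pt d => star φ fin fout t x G := by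
  refine measurable_select (fun x => srt φ x) (measurableSet_srt hφ)
    (fun π x => amin (fun _ => true) (Psi fin fout t (x ∘ π) (G.comap π)) Finset.univ.toList ∘
      π.symm) fun π => ?_
  have h1 : Measurable fun x : Fin N → Pt d =>
      amin (fun _ => true) (Psi fin fout t (x ∘ π) (G.comap π)) Finset.univ.toList :=
    measurable_amin _ (fun x : Fin N → Pt d => Psi fin fout t (x ∘ π) (G.comap π))
      (fun θ => (measurable_Psi hfin hfout t _ θ).comp (measurable_comp' _)) _
  exact (measurable_comp' π.symm).comp h1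

theorem star_equivariant {φ : Pt d → ℝ} (hφ : Function.Injective φ) (t : ℝ) {N : ℕ}
    (x : Fin N → Pt d) (G : SimpleGraph (Fin N)) (ρ : Equiv.Perm (Fin N))
    (hx : Function.Injective x) :
    star φ fin fout t (x ∘ ρ) (G.comap ρ) = star φ fin fout t x G ∘ ρ := by
  have h1 : srt φ (x ∘ ρ) = (srt φ x).trans ρ.symm := by
    symm
    unfold srt
    rw [Tuple.eq_sort_iff]
    constructor
    · have : ((φ ∘ x ∘ ρ) ∘ ((Tuple.sort (φ ∘ x)).trans ρ.symm)) =
          (φ ∘ x) ∘ (Tuple.sort (φ ∘ x)) := by
        funext i; simp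
      rw [this]
      exact Tuple.monotone_sort _
    · intro i j hij he
      exfalso
      have he' : φ (x (Tuple.sort (φ ∘ x) i)) = φ (x (Tuple.sort (φ ∘ x) j)) := by
        simpa using he
      have := (Tuple.sort (φ ∘ x)).injective (hx (hφ he'))
      exact hij.ne this
  unfold star
  rw [h1]
  have h2 : (x ∘ ρ) ∘ ((srt φ x).trans ρ.symm) = x ∘ srt φ x := by
    funext i; simp
  have h3 : (G.comap ρ).comap ((srt φ x).trans ρ.symm) = G.comap (srt φ x) := by
    ext a b; simp
  rw [h2, h3]
  funext i
  simp

/-- The optimal estimator. -/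
noncomputable def starEst (hfin : Measurable fin) (hfout : Measurable fout) {φ : Pt d → ℝ}
    (hφ : Measurable φ) (hφi : Function.Injective φ) (t : ℝ) : Estimator d where
  est _ _ x G := star φ fin fout t x G
  measurable_est _ _ G := measurable_star hfin hfout hφ t G
  equivariant _ _ x G ρ hx := star_equivariant hφi t x G ρ hx

end Pool.Agent.K7.H99.OV
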