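import Mathlib

/-!
# Product weights on `ι → Bool`, second moments, Bessel's inequality
-/

namespace Pool.Agent.K7.H99.OV

open Finset

variable {ι : Type*} [Fintype ι] [DecidableEq ι]

/-- Product weight. -/
def pw (r : ι → Bool → ℝ) (b : ι → Bool) : ℝ := ∏ i, r i (b i)

theorem pw_nonneg {r : ι → Bool → ℝ} (hr : ∀ i v, 0 ≤ r i v) (b : ι → Bool) : 0 ≤ pw r b :=
  prod_nonneg fun i _ => hr i _

theorem sum_pw_mul_prod (r : ι → Bool → ℝ) (g : ι → Bool → ℝ) :
    ∑ b, pw r b * ∏ i, g i (b i) = ∏ i, ∑ v, r i v * g i v := by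
  have h := Finset.prod_univ_sum (fun _ : ι => (Finset.univ : Finset Bool))
    (fun i v => r i v * g i v)
  rw [h, Fintype.piFinset_univ]
  refine Finset.sum_congr rfl fun b _ => ?_
  rw [pw, ← prod_mul_distrib]

theorem sum_pw {r : ι → Bool → ℝ} (hr : ∀ i, ∑ v, r i v = 1) : ∑ b, pw r b = 1 := by
  have h := sum_pw_mul_prod r (fun _ _ => 1)
  simp only [prod_const_one, mul_one] at h
  rw [h]
  exact prod_eq_one fun i _ => hr i

/-- Expectation of a function of one coordinate. -/
theorem sum_pw_single {r : ι → Bool → ℝ} (hr : ∀ i, ∑ v, r i v = 1) (i : ι) (y : Bool → ℝ) :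
    ∑ b, pw r b * y (b i) = ∑ v, r i v * y v := by
  have h := sum_pw_mul_prod r (fun k v => if k = i then y v else 1)
  have h1 : ∀ b : ι → Bool, ∏ k, (if k = i then y (b k) else 1) = y (b i) := by
    intro b; simp
  simp only [h1] at h
  rw [h, prod_eq_single i]
  · simp
  · intro k _ hk
    have := hr k
    simpa [hk] using this
  · intro h; exact absurd (mem_univ _) h

/-- Expectation of a product of functions of two different coordinates. -/
theorem sum_pw_pair {r : ι → Bool → ℝ} (hr : ∀ i, ∑ v, r i v = 1) {i j : ι} (hij : i ≠ j)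
    (y y' : Bool → ℝ) :
    ∑ b, pw r b * (y (b i) * y' (b j)) = (∑ v, r i v * y v) * ∑ v, r j v * y' v := by
  have h := sum_pw_mul_prod r (fun k v => (if k = i then y v else 1) * (if k = j then y' v else 1))
  have h1 : ∀ b : ι → Bool, ∏ k, ((if k = i then y (b k) else 1) * (if k = j then y' (b k) else 1))
      = y (b i) * y' (b j) := by
    intro b; rw [prod_mul_distrib]; simp
  simp only [h1] at h
  rw [h, ← mul_prod_erase univ _ (mem_univ i), ← mul_prod_erase (univ.erase i) _
    (mem_erase.2 ⟨hij.symm, mem_univ j⟩), prod_eq_one, mul_one]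
  · simp [hij, hij.symm]
  · intro k hk
    simp only [mem_erase, mem_univ, and_true] at hk
    have := hr k
    simpa [hk.1, hk.2] using this

/-- Second moment of a sum of centred functions of the coordinates. -/
theorem sum_pw_sq {r : ι → Bool → ℝ} (hr : ∀ i, ∑ v, r i v = 1) (y : ι → Bool → ℝ)
    (hy : ∀ i, ∑ v, r i v * y i v = 0) :
    ∑ b, pw r b * (∑ i, y i (b i)) ^ 2 = ∑ i, ∑ v, r i v * (y i v) ^ 2 := by
  have h1 : ∀ b : ι → Bool, pw r b * (∑ i, y i (b i)) ^ 2 =
      ∑ i, ∑ j, pw r b * (y i (b i) * y j (b j)) := by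
    intro b
    rw [sq, sum_mul_sum, mul_sum]
    refine sum_congr rfl fun i _ => ?_
    rw [mul_sum]
  simp only [h1]
  rw [sum_comm]
  refine sum_congr rfl fun i _ => ?_
  rw [sum_comm, sum_eq_single i]
  · have := sum_pw_single hr i (fun v => y i v * y i v)
    rw [this]
    refine sum_congr rfl fun v _ => by ring
  · intro j _ hj
    rw [sum_pw_pair hr hj.symm, hy, zero_mul]
  · intro h; exact absurd (mem_univ _) h

/-- Chebyshev's inequality for product weights. -/
theorem chebyshev {r : ι → Bool → ℝ} (hr0 : ∀ i v, 0 ≤ r i v) (hr : ∀ i, ∑ v, r i v = 1)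
    (y : ι → Bool → ℝ) (hy : ∀ i, ∑ v, r i v * y i v = 0) {t : ℝ} (ht : 0 < t) :
    ∑ b, pw r b * (if t ≤ |∑ i, y i (b i)| then 1 else 0) ≤
      (∑ i, ∑ v, r i v * (y i v) ^ 2) / t ^ 2 := by
  rw [← sum_pw_sq hr y hy, sum_div]
  refine sum_le_sum fun b _ => ?_
  rw [mul_div_assoc]
  refine mul_le_mul_of_nonneg_left ?_ (pw_nonneg hr0 b)
  split_ifs with h
  · rw [le_div_iff₀ (by positivity), one_mul, ← sq_abs (∑ i, y i (b i))]
    exact pow_le_pow_left₀ ht.le h 2
  · positivity

/-- Bessel's inequality for product Bernoulli weights: an event of probability `P(A)` changes the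
inclusion probabilities only a little. -/
theorem bessel {p : ℝ} (hp0 : 0 < p) (hp1 : p < 1) (a : (ι → Bool) → ℝ) :
    let r : ι → Bool → ℝ := fun _ v => if v then p else 1 - p
    ∑ i, (∑ b, pw r b * (a b * ((if b i then 1 else 0) - p))) ^ 2 ≤
      p * (1 - p) * ∑ b, pw r b * (a b) ^ 2 := by
  intro r
  have hr0 : ∀ i v, 0 ≤ r i v := by
    intro i v; simp only [r]; split_ifs <;> linarith
  have hr : ∀ i, ∑ v, r i v = 1 := by
    intro i; simp [r]
  set c := p * (1 - p) with hc
  have hc0 : 0 < c := mul_pos hp0 (by linarith)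
  let e : ι → ℝ := fun i => ∑ b, pw r b * (a b * ((if b i then 1 else 0) - p))
  let y : ι → Bool → ℝ := fun i v => e i * ((if v then 1 else 0) - p)
  have hy : ∀ i, ∑ v, r i v * y i v = 0 := by
    intro i; simp [r, y]; ring
  have h2 := sum_pw_sq hr y hy
  have h3 : ∑ i, ∑ v, r i v * (y i v) ^ 2 = c * ∑ i, (e i) ^ 2 := by
    rw [mul_sum]
    refine sum_congr rfl fun i _ => ?_
    simp [r, y, hc]; ring
  have h4 : ∑ b, pw r b * (a b * ∑ i, y i (b i)) = ∑ i, (e i) ^ 2 := by
    have : ∀ b, pw r b * (a b * ∑ i, y i (b i)) =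
        ∑ i, e i * (pw r b * (a b * ((if b i then 1 else 0) - p))) := by
      intro b
      rw [mul_sum, mul_sum]
      refine sum_congr rfl fun i _ => ?_
      simp only [y]; ring
    simp only [this]
    rw [sum_comm]
    refine sum_congr rfl fun i _ => ?_
    rw [← mul_sum, sq]
  have h5 : 0 ≤ ∑ b, pw r b * (c * a b - ∑ i, y i (b i)) ^ 2 :=
    sum_nonneg fun b _ => mul_nonneg (pw_nonneg hr0 b) (sq_nonneg _)
  have h6 : ∑ b, pw r b * (c * a b - ∑ i, y i (b i)) ^ 2 =
      c ^ 2 * ∑ b, pw r b * (a b) ^ 2 - 2 * c * ∑ b, pw r b * (a b * ∑ i, y i (b i)) +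
        ∑ b, pw r b * (∑ i, y i (b i)) ^ 2 := by
    rw [mul_sum, mul_sum, ← sum_sub_distrib, ← sum_add_distrib]
    refine sum_congr rfl fun b _ => by ring
  rw [h6, h4, h2, h3] at h5
  have h7 : 0 ≤ c * (c * ∑ b, pw r b * (a b) ^ 2 - ∑ i, (e i) ^ 2) := by nlinarith [h5]
  have h8 := nonneg_of_mul_nonneg_right h7 hc0
  simp only [e] at h8
  linarith

end Pool.Agent.K7.H99.OV
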