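import Pool.Agent.K7.H99.OV.Model

/-!
# Thinning: Poisson weights, and the labelling of a random subset
-/

open MeasureTheory ProbabilityTheory Filter Topology

open scoped ENNReal

namespace Pool.Agent.K7.H99.OV

/-- The subset coded by `S`. -/
def sub {N : ℕ} (S : Fin N → Bool) : Finset (Fin N) := Finset.univ.filter fun i => S i = true

theorem mem_sub {N : ℕ} (S : Fin N → Bool) (i : Fin N) : i ∈ sub S ↔ S i = true := by
  simp [sub]

theorem pw_ber {N : ℕ} (p : ℝ) (S : Fin N → Bool) :
    pw (ber (Fin N) p) S = p ^ (sub S).card * (1 - p) ^ (N - (sub S).card) := by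
  unfold pw ber
  rw [Finset.prod_ite, Finset.prod_const, Finset.prod_const]
  congr 2
  have h := Finset.card_filter_add_card_filter_not (s := (Finset.univ : Finset (Fin N)))
    (fun i => S i = true)
  rw [Finset.card_univ, Fintype.card_fin] at h
  rw [sub]; omega

theorem sum_sub {N : ℕ} {M : Type*} [AddCommMonoid M] (g : ℕ → M) :
    ∑ S : Fin N → Bool, g (sub S).card = ∑ k ∈ Finset.range (N + 1), N.choose k • g k := by
  have h1 : ∑ S : Fin N → Bool, g (sub S).card =
      ∑ T ∈ (Finset.univ : Finset (Fin N)).powerset, g T.card := by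
    refine Finset.sum_nbij' (fun S => sub S) (fun T i => decide (i ∈ T)) ?_ ?_ ?_ ?_ ?_
    · intro S _; simp
    · intro T _; simp
    · intro S _; funext i; simp [mem_sub]
    · intro T _; ext i; simp [mem_sub]
    · intro S _; rfl
  rw [h1, Finset.sum_powerset_apply_card]
  simp

theorem tsum_poi {m : ℝ} (hm : 0 ≤ m) : ∑' k, poi m k = 1 := by
  have h := hasSum_one_poissonMeasure (⟨m, hm⟩ : NNReal)
  have h2 : ∀ k, 0 ≤ Real.exp (-m) * m ^ k / k.factorial := fun k => by positivity
  have h3 := ENNReal.ofReal_tsum_of_nonneg h2 h.summable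
  have h4 : ∑' k, Real.exp (-m) * m ^ k / (k.factorial : ℝ) = 1 := h.tsum_eq
  rw [h4, ENNReal.ofReal_one] at h3
  exact h3.symm

theorem poi_split {p m : ℝ} (hp0 : 0 < p) (hp1 : p < 1) (hm : 0 ≤ m) (k l : ℕ) :
    poi m (k + l) * ENNReal.ofReal (((k + l).choose k : ℝ) * (p ^ k * (1 - p) ^ l)) =
      poi (p * m) k * poi ((1 - p) * m) l := by
  have hq : 0 < 1 - p := by linarith
  unfold poi
  rw [← ENNReal.ofReal_mul (by positivity), ← ENNReal.ofReal_mul (by positivity)]
  congr 1
  have h1 : ((k + l).choose k : ℝ) * k.factorial * l.factorial = (k + l).factorial := by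
    have := Nat.add_choose_mul_factorial_mul_factorial k l
    rw [← Nat.choose_symm_add] at this
    exact_mod_cast this
  have h2 : Real.exp (-m) = Real.exp (-(p * m)) * Real.exp (-((1 - p) * m)) := by
    rw [← Real.exp_add]; congr 1; ring
  have hk : (k.factorial : ℝ) ≠ 0 := by positivity
  have hl : (l.factorial : ℝ) ≠ 0 := by positivity
  have hkl : ((k + l).factorial : ℝ) ≠ 0 := by positivity
  rw [h2, mul_pow p m k, mul_pow (1 - p) m l, ← h1, pow_add]
  have hc : ((k + l).choose k : ℝ) ≠ 0 := by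
    intro h; rw [h, zero_mul, zero_mul] at h1; exact hkl h1.symm
  generalize 1 - p = q
  field_simp

theorem tsum_antidiag (f : ℕ → ℕ → ℝ≥0∞) :
    ∑' N, ∑ ij ∈ Finset.HasAntidiagonal.antidiagonal N, f ij.1 ij.2 = ∑' i, ∑' j, f i j := by
  rw [← ENNReal.tsum_prod, ← (Finset.HasAntidiagonal.sigmaAntidiagonalEquivProd (A := ℕ)).tsum_eq,
    ENNReal.tsum_sigma']
  refine tsum_congr fun N => ?_
  rw [tsum_fintype]
  simp only [Finset.HasAntidiagonal.sigmaAntidiagonalEquivProd_apply]
  rw [← Finset.sum_coe_sort (Finset.HasAntidiagonal.antidiagonal N) (fun ij => f ij.1 ij.2)]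

/-- Thinning of Poisson variables. -/
theorem poisson_thin {p m : ℝ} (hp0 : 0 < p) (hp1 : p < 1) (hm : 0 ≤ m) (F : ℕ → ℝ≥0∞) :
    ∑' N, poi m N * ∑ S : Fin N → Bool, ENNReal.ofReal (pw (ber (Fin N) p) S) * F (sub S).card =
      ∑' k, poi (p * m) k * F k := by
  have hq : 0 < 1 - p := by linarith
  have h1 : ∀ N : ℕ, ∑ S : Fin N → Bool, ENNReal.ofReal (pw (ber (Fin N) p) S) * F (sub S).card =
      ∑ ij ∈ Finset.HasAntidiagonal.antidiagonal N,
        ENNReal.ofReal (((ij.1 + ij.2).choose ij.1 : ℝ) * (p ^ ij.1 * (1 - p) ^ ij.2)) *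
          F ij.1 := by
    intro N
    simp only [pw_ber]
    rw [sum_sub (fun k => ENNReal.ofReal (p ^ k * (1 - p) ^ (N - k)) * F k),
      ← Finset.Nat.sum_antidiagonal_eq_sum_range_succ (fun k l => N.choose k •
        (ENNReal.ofReal (p ^ k * (1 - p) ^ l) * F k))]
    refine Finset.sum_congr rfl fun ij hij => ?_
    rw [Finset.HasAntidiagonal.mem_antidiagonal] at hij
    have h5 : ENNReal.ofReal ((N.choose ij.1 : ℝ) * (p ^ ij.1 * (1 - p) ^ ij.2)) =
        (N.choose ij.1 : ℝ≥0∞) * ENNReal.ofReal (p ^ ij.1 * (1 - p) ^ ij.2) := by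
      rw [ENNReal.ofReal_mul (Nat.cast_nonneg _), ENNReal.ofReal_natCast]
    rw [hij, h5, nsmul_eq_mul, mul_assoc]
  simp only [h1, Finset.mul_sum]
  have h2 : ∀ N : ℕ, ∑ ij ∈ Finset.HasAntidiagonal.antidiagonal N, poi m N *
      (ENNReal.ofReal (((ij.1 + ij.2).choose ij.1 : ℝ) * (p ^ ij.1 * (1 - p) ^ ij.2)) *
          F ij.1) = ∑ ij ∈ Finset.HasAntidiagonal.antidiagonal N, poi (p * m) ij.1 * poi ((1 - p) * m) ij.2 *
            F ij.1 := by
    intro N
    refine Finset.sum_congr rfl fun ij hij => ?_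
    rw [Finset.HasAntidiagonal.mem_antidiagonal] at hij
    rw [← poi_split hp0 hp1 hm, ← hij]; ring
  simp only [h2]
  rw [tsum_antidiag (fun k l => poi (p * m) k * poi ((1 - p) * m) l * F k)]
  refine tsum_congr fun k => ?_
  have h3 : ∀ l, poi (p * m) k * poi ((1 - p) * m) l * F k =
      (poi (p * m) k * F k) * poi ((1 - p) * m) l := fun l => by ring
  simp only [h3]
  rw [ENNReal.tsum_mul_left, tsum_poi (by positivity), mul_one]

/-- The enumeration of the subset coded by `S`. -/
def emb {N : ℕ} (S : Fin N → Bool) : Fin (sub S).card → Fin N :=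
  (sub S).orderEmbOfFin rfl

theorem emb_injective {N : ℕ} (S : Fin N → Bool) : Function.Injective (emb S) :=
  ((sub S).orderEmbOfFin rfl).injective

theorem emb_mem {N : ℕ} (S : Fin N → Bool) (l : Fin (sub S).card) : S (emb S l) = true := by
  rw [← mem_sub]; exact Finset.orderEmbOfFin_mem _ _ _

/-- A labelling of the subset coded by `S`, extended by `0`. -/
noncomputable def spread {N : ℕ} (S : Fin N → Bool) (a : Fin (sub S).card → Bool) (i : Fin N) : ℝ :=
  ∑ l, if emb S l = i then sg (a l) else 0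

theorem abs_spread_le {N : ℕ} (S : Fin N → Bool) (a : Fin (sub S).card → Bool) (i : Fin N) :
    |spread S a i| ≤ if S i = true then 1 else 0 := by
  by_cases h : ∃ l, emb S l = i
  · obtain ⟨l, rfl⟩ := h
    rw [if_pos (emb_mem S l)]
    have : spread S a (emb S l) = sg (a l) := by
      rw [spread, Finset.sum_eq_single l]
      · simp
      · intro b _ hb
        rw [if_neg fun h => hb (emb_injective S h)]
      · intro h; exact absurd (Finset.mem_univ _) h
    rw [this, abs_sg]
  · have : spread S a i = 0 := by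
      rw [spread]
      refine Finset.sum_eq_zero fun l _ => ?_
      rw [if_neg fun hl => h ⟨l, hl⟩]
    rw [this, abs_zero]
    split_ifs <;> norm_num

theorem sum_spread {N : ℕ} (S : Fin N → Bool) (a : Fin (sub S).card → Bool) (z : Fin N → Bool) :
    ∑ i, spread S a i * sg (z i) = ∑ l, sg (a l) * sg (z (emb S l)) := by
  simp only [spread, Finset.sum_mul]
  rw [Finset.sum_comm]
  refine Finset.sum_congr rfl fun l _ => ?_
  rw [Finset.sum_eq_single (emb S l)]
  · simp
  · intro b _ hb
    rw [if_neg (Ne.symm hb), zero_mul]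
  · intro h; exact absurd (Finset.mem_univ _) h

theorem sum_ind {N : ℕ} (S : Fin N → Bool) :
    ∑ i, (if S i = true then (1 : ℝ) else 0) = (sub S).card := by
  rw [Finset.sum_boole, sub]

end Pool.Agent.K7.H99.OV
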